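import Mathlib

/-!
MP_b94b02_co: the excedance polynomials `A_n^+`, `A_n^-` of the even and odd permutations are real-rooted for all `n ≥ 6`.
(At `n = 5` this fails, `Results/MP_b94b02_co/FiveEven`.)

Paper proof. `A_n^± = (E_n ± (1-t)^(n-1))/2` with `E_n` the Eulerian polynomial. With `σ(u) = 1/(1+e^u)` one has
`σ^(n)(u) = S n u = -e^u E_n(-e^u)/(1+e^u)^(n+1)`. If `|S n| > e^u/(1+e^u)^2` at `n-2` points with alternating signs then both
polynomials have enough sign changes (`Alt`). For `n ≥ 12` we keep by the mean value theorem `m = (n-2)/2` points on the left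
half line with `|S n (u_j)| > F n (u_j)`, `F n u = 64 (3/2)^(n-12) e^(3u/2)`, alternating signs (`H n`): the derivative of
`S n - (±F n)` between two such points (and on `(-∞, u_0)`, where both tend to 0) gives the points for `n+1`; the value at
`u = 0` for odd `n` is large (`TCenter`). As `S n < 0` for `u ≤ -n log 2` (`TNeg`), all `u_j > -n log 2`, where
`F n > e^u/(1+e^u)^2` (`TDom`).
-/

set_option autoImplicit false

namespace Q281ER

open Polynomial Filter Topology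

/-- Number of excedances. -/
def exc {n : ℕ} (σ : Equiv.Perm (Fin n)) : ℕ := (Finset.univ.filter (fun i => i < σ i)).card

/-- `A_n^+`: excedance polynomial of the even permutations. -/
noncomputable def Aplus (n : ℕ) : ℝ[X] :=
  ∑ σ ∈ Finset.univ.filter (fun σ : Equiv.Perm (Fin n) => Equiv.Perm.sign σ = 1), X ^ exc σ

/-- `A_n^-`: excedance polynomial of the odd permutations. -/
noncomputable def Aminus (n : ℕ) : ℝ[X] :=
  ∑ σ ∈ Finset.univ.filter (fun σ : Equiv.Perm (Fin n) => Equiv.Perm.sign σ = -1), X ^ exc σ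

/-- All complex roots are real. -/
def RealRooted (p : ℝ[X]) : Prop := ∀ z : ℂ, aeval z p = 0 → z.im = 0

/-- the Eulerian polynomial -/
noncomputable def E (n : ℕ) : ℝ[X] := ∑ σ : Equiv.Perm (Fin n), X ^ exc σ

/-- the `n`-th derivative of `1/(1+e^u)` -/
noncomputable def S (n : ℕ) (u : ℝ) : ℝ :=
  -Real.exp u * (E n).eval (-Real.exp u) / (1 + Real.exp u) ^ (n + 1)

/-- `64 (3/2)^(n-12) e^(3u/2)` -/
noncomputable def F (n : ℕ) (u : ℝ) : ℝ := 64 * (3 / 2) ^ n / (3 / 2) ^ 12 * Real.exp (3 / 2 * u)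

/-- enough alternation of `E_n` against `(1-t)^(n-1)` at `n - 2` negative points -/
def Alt (n : ℕ) : Prop := ∃ t : ℕ → ℝ, (∀ j, j < n - 2 → t j < 0) ∧
  (∀ i j, i < j → j < n - 2 → t j < t i) ∧
  ∀ j, j < n - 2 → (1 - t j) ^ (n - 1) < (-1) ^ (j + 1) * (E n).eval (t j)

/-- the same in terms of `S` -/
def AltS (n : ℕ) : Prop := ∃ v : ℕ → ℝ, (∀ i j, i < j → j < n - 2 → v i < v j) ∧
  ∀ j, j < n - 2 → Real.exp (v j) / (1 + Real.exp (v j)) ^ 2 < (-1) ^ j * S n (v j)

/-- the induction hypothesis -/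
def H (n : ℕ) : Prop := ∃ u : ℕ → ℝ, (∀ j, j < (n - 2) / 2 → u j < 0) ∧
  (∀ i j, i < j → j < (n - 2) / 2 → u i < u j) ∧
  ∀ j, j < (n - 2) / 2 → F n (u j) < (-1) ^ j * S n (u j)

/-- Det: the generating function of signs. `∑ sign σ ∏ M (σ i) i = det M` with `M (σ i) i = X` if `i < σ i`, else `1`
(`Matrix.det_apply`); the determinant is `(1-X)^(n-1)`: induction on `n` after subtracting neighbouring rows/columns. -/
def TDet : Prop := ∀ n : ℕ, 1 ≤ n → Aplus n - Aminus n = (1 - X) ^ (n - 1)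

/-- Rec: recursion of the Eulerian polynomials for excedances: every permutation of `n+1` points is `σ` (fixing the last
point `n`) composed on the right with `swap p n`: `exc` grows by 1 exactly if `p < n` and `σ p ≤ p`. -/
def TRec : Prop := ∀ n : ℕ, E (n + 1) = (1 + (n : ℝ[X]) * X) * E n + X * (1 - X) * derivative (E n)

/-- Explicit (from Rec, `E 0 = 1`). -/
def TExplicit : Prop := E 11 = 1 + 2036 * X ^ 1 + 152637 * X ^ 2 + 2203488 * X ^ 3 + 9738114 * X ^ 4 + 15724248 * X ^ 5 + 9738114 * X ^ 6 + 2203488 * X ^ 7 + 152637 * X ^ 8 + 2036 * X ^ 9 + X ^ 10 ∧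
  E 6 = 1 + 57 * X ^ 1 + 302 * X ^ 2 + 302 * X ^ 3 + 57 * X ^ 4 + X ^ 5 ∧
  E 7 = 1 + 120 * X ^ 1 + 1191 * X ^ 2 + 2416 * X ^ 3 + 1191 * X ^ 4 + 120 * X ^ 5 + X ^ 6 ∧
  E 8 = 1 + 247 * X ^ 1 + 4293 * X ^ 2 + 15619 * X ^ 3 + 15619 * X ^ 4 + 4293 * X ^ 5 + 247 * X ^ 6 + X ^ 7 ∧
  E 9 = 1 + 502 * X ^ 1 + 14608 * X ^ 2 + 88234 * X ^ 3 + 156190 * X ^ 4 + 88234 * X ^ 5 + 14608 * X ^ 6 + 502 * X ^ 7 + X ^ 8 ∧
  E 10 = 1 + 1013 * X ^ 1 + 47840 * X ^ 2 + 455192 * X ^ 3 + 1310354 * X ^ 4 + 1310354 * X ^ 5 + 455192 * X ^ 6 + 47840 * X ^ 7 + 1013 * X ^ 8 + X ^ 9 ∧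
  E 12 = 1 + 4083 * X ^ 1 + 478271 * X ^ 2 + 10187685 * X ^ 3 + 66318474 * X ^ 4 + 162512286 * X ^ 5 + 162512286 * X ^ 6 + 66318474 * X ^ 7 + 10187685 * X ^ 8 + 478271 * X ^ 9 + 4083 * X ^ 10 + X ^ 11

/-- Deriv (from Rec): direct differentiation. -/
def TDeriv : Prop := ∀ (n : ℕ) (u : ℝ), HasDerivAt (S n) (S (n + 1) u) u

/-- Parity (from Deriv; `E 1 = 1` so `S 1 u = -e^u/(1+e^u)^2` is even): induction, derivative of both sides. -/
def TParity : Prop := ∀ n : ℕ, 1 ≤ n → ∀ u : ℝ, S n (-u) = (-1) ^ (n + 1) * S n u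

/-- Series (from Deriv): `S n u = ∑ (-1)^k k^n e^(ku)` for `u < 0`. Induction on `n` (from `n = 0` with the term `k = 0`
removed: `S 0 u = 1/(1+e^u) - 1`), termwise differentiation (`hasDerivAt_tsum_of_isPreconnected`, or differentiate the power
series), or by power series in `x = e^u` and the recursion Rec. -/
def TSeries : Prop := ∀ n : ℕ, 1 ≤ n → ∀ u : ℝ, u < 0 →
  HasSum (fun k : ℕ => (-1 : ℝ) ^ (k + 1) * ((k : ℝ) + 1) ^ n * Real.exp (((k : ℝ) + 1) * u)) (S n u)

/-- Neg (from Series): for `e^u ≤ 2^(-n)` the absolute values of the terms decrease (ratio `((k+2)/(k+1))^n e^u ≤ 1`,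
strictly for `k ≥ 1`), so the alternating sum has the sign of its first term `-e^u`. -/
def TNeg : Prop := ∀ n : ℕ, 1 ≤ n → ∀ u : ℝ, u ≤ -(n * Real.log 2) → S n u < 0

/-- `ρ_0 = S 0 + 1/2`, `ρ_k = S k` -/
noncomputable def rho (k : ℕ) (u : ℝ) : ℝ := if k = 0 then S 0 u + 1 / 2 else S k u

/-- Conv (from Deriv): `ρ' = ρ² - 1/4`, so `ρ'' = 2ρρ'`; differentiate `n` times (Leibniz, induction on `n`). -/
def TConv : Prop := ∀ (n : ℕ) (u : ℝ),
  S (n + 2) u = 2 * ∑ k ∈ Finset.range (n + 1), (n.choose k : ℝ) * rho k u * rho (n + 1 - k) u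

/-- Center (from Conv, Parity, Explicit): for odd `n = 2i+1` the signs of `S n 0` alternate, all terms of Conv at `0` have
the same sign (`k` even gives 0) and the terms `k = 1` and `k = n` give `|S (n+2) 0| ≥ (n+1)/2 |S n 0|`;
`|S 11 0| = 353792/4096`. -/
def TCenter : Prop := ∀ n : ℕ, 13 ≤ n → n % 2 = 1 → F n 0 < (-1) ^ ((n + 1) / 2) * S n 0

/-- Tend: `S n u → 0` as `u → -∞`. -/
def TTend : Prop := ∀ n : ℕ, Tendsto (S n) atBot (𝓝 0)

/-- Step (from Deriv, Tend, Center): mean value theorem; see the head of the file. For `n` odd the last interval is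
`(u_{m-1}, 0)` with TCenter at `0` (note `(-1)^((n+1)/2) = (-1)^((n-3)/2)`). -/
def TStep : Prop := ∀ n : ℕ, 12 ≤ n → H n → H (n + 1)

/-- Dom: `F n u ≥ 64 (3/2)^(n-12) e^u e^(u/2) ≥ e^u` as `e^(u/2) ≥ 2^(-n/2)` and `3/2 > √2`. -/
def TDom : Prop := ∀ n : ℕ, 12 ≤ n → ∀ u : ℝ, -(n * Real.log 2) ≤ u → Real.exp u / (1 + Real.exp u) ^ 2 < F n u

/-- Base (from Explicit): points `u_j = 2 log r_j`, `r = 23/400, 9/50, 7/20, 11/20, 4/5`. -/
def TBase : Prop := H 12

/-- Trans: translation with `t j = -exp (v j)`. -/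
def TTrans : Prop := ∀ n : ℕ, 3 ≤ n → AltS n → Alt n

/-- Sym (from Neg, Dom, Parity, Center): the points `u_0 < … < u_{m-1} (< 0) < -u_{m-1} < … < -u_0` (with the middle point `0`
for odd `n`; `F n 0 = 64 (3/2)^(n-12) > 1/4`); `u_0 > -n log 2` by Neg as `S n (u_0) > 0`, so Dom applies to all `u_j`. -/
def TSym : Prop := ∀ n : ℕ, 12 ≤ n → H n → AltS n

/-- Small (from Explicit): explicit rational points `t_j` (for each point `t` also `1/t`, and `-1` for odd `n`). -/
def TSmall6 : Prop := Alt 6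
def TSmall7 : Prop := Alt 7
def TSmall8 : Prop := Alt 8
def TSmall9 : Prop := Alt 9
def TSmall10 : Prop := Alt 10
def TSmall11 : Prop := Alt 11

/-- Roots: `N` sign changes and degree at most `N`. -/
def TRoots : Prop := ∀ (p : ℝ[X]) (N : ℕ) (x : ℕ → ℝ), p.natDegree ≤ N → p ≠ 0 → (∀ i j, i < j → j ≤ N → x j < x i) →
  (∀ j, j < N → p.eval (x j) * p.eval (x (j + 1)) < 0) → RealRooted p

/-- Plus (from Det, Roots): `2 A_n^+ = E_n + (1-X)^(n-1)`, value `2` at `0`, sign `(-1)^(j+1)` at `t j`; for even `n` the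
degree is at most `n-2` (leading coefficients cancel), for odd `n` the leading term is `2 X^(n-1)` (one more change at `-∞`). -/
def TPlus : Prop := ∀ n : ℕ, 3 ≤ n → Alt n → RealRooted (Aplus n)

/-- Minus (from Det): `2 A_n^- = E_n - (1-X)^(n-1)` has the root `0` (divide by `X`), sign `(-1)^(j+1)` at `t j`; for odd `n`
the degree is at most `n-2`, for even `n` the leading term is `2 X^(n-1)`. -/
def TMinus : Prop := ∀ n : ℕ, 3 ≤ n → Alt n → RealRooted (Aminus n)

/-- Lead: the coefficients of `E n` at `0` and at `n - 1` are `1`, and the degree is `n - 1` (only the identity has no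
excedance, only the cycle `i ↦ i+1` has `n - 1`; or from Rec). -/
def TLead : Prop := ∀ n : ℕ, 1 ≤ n → (E n).coeff 0 = 1 ∧ (E n).coeff (n - 1) = 1 ∧ (E n).natDegree = n - 1

/-- The theorem. -/
theorem assembly (hE : TStep) (hB : TBase) (hS : TSym) (hT : TTrans) (h6 : TSmall6) (h7 : TSmall7) (h8 : TSmall8)
    (h9 : TSmall9) (h10 : TSmall10) (h11 : TSmall11) (hp : TPlus) (hm : TMinus) (n : ℕ) (hn : 6 ≤ n) :
    RealRooted (Aplus n) ∧ RealRooted (Aminus n) := by
  have hH : ∀ k : ℕ, H (12 + k) := by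
    intro k
    induction k with
    | zero => exact hB
    | succ k ih => exact hE (12 + k) (by omega) ih
  have hA : Alt n := by
    rcases Nat.lt_or_ge n 12 with h | h
    · interval_cases n
      · exact h6
      · exact h7
      · exact h8
      · exact h9
      · exact h10
      · exact h11
    · obtain ⟨k, rfl⟩ := Nat.exists_eq_add_of_le h
      exact hT _ (by omega) (hS _ (by omega) (hH k))
  exact ⟨hp n (by omega) hA, hm n (by omega) hA⟩

end Q281ER
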