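import Mathlib
import Pool.Agent.Q281.ER.Stmts

set_option autoImplicit false

namespace Q281ER

open Polynomial

private noncomputable def rr (j : ℕ) : ℝ :=
  if j = 0 then 23 / 400 else if j = 1 then 9 / 50 else if j = 2 then 7 / 20 else
    if j = 3 then 11 / 20 else 4 / 5

private theorem rr_pos (j : ℕ) : 0 < rr j := by
  unfold rr
  split_ifs <;> norm_num

private theorem rr_lt (j : ℕ) : rr j < 1 := by
  unfold rr
  split_ifs <;> norm_num

private theorem F12 (r : ℝ) (hr : 0 < r) : F 12 (2 * Real.log r) = 64 * r ^ 3 := by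
  have h1 : Real.exp (3 / 2 * (2 * Real.log r)) = r ^ 3 := by
    have h2 : 3 / 2 * (2 * Real.log r) = ((3 : ℕ) : ℝ) * Real.log r := by push_cast; ring
    rw [h2, Real.exp_nat_mul, Real.exp_log hr]
  unfold F
  rw [h1]
  norm_num

private theorem S12 (r : ℝ) (hr : 0 < r) : S 12 (2 * Real.log r) =
    -(r ^ 2) * (E 12).eval (-(r ^ 2)) / (1 + r ^ 2) ^ 13 := by
  have h1 : Real.exp (2 * Real.log r) = r ^ 2 := by
    have h2 : 2 * Real.log r = ((2 : ℕ) : ℝ) * Real.log r := by push_cast; ring
    rw [h2, Real.exp_nat_mul, Real.exp_log hr]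
  unfold S
  rw [h1]

theorem tBase (hx : TExplicit) : TBase := by
  obtain ⟨-, -, -, -, -, -, h12⟩ := hx
  refine ⟨fun j => 2 * Real.log (rr j), fun j _ => ?_, fun i j hij hj => ?_, fun j hj => ?_⟩
  · have := Real.log_neg (rr_pos j) (rr_lt j)
    simp only
    linarith
  · have h1 : rr i < rr j := by
      have hj' : j < 5 := hj
      interval_cases j <;> interval_cases i <;> norm_num [rr]
    have := Real.log_lt_log (rr_pos i) h1
    simp only
    linarith
  · have hj' : j < 5 := hj
    simp only
    rw [F12 _ (rr_pos j), S12 _ (rr_pos j), h12]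
    simp only [eval_add, eval_mul, eval_pow, eval_X, eval_one, eval_ofNat]
    interval_cases j <;> norm_num [rr]

end Q281ER
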