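import Pool.Agent.Q281.ER.Stmts

set_option autoImplicit false

namespace Q281ER

open Polynomial Filter Topology

namespace Center

theorem exc_zero_of_subsingleton {n : ℕ} (hn : n ≤ 1) (σ : Equiv.Perm (Fin n)) : exc σ = 0 := by
  unfold exc
  rw [Finset.card_eq_zero, Finset.filter_eq_empty_iff]
  intro i _ h
  have h1 := i.2
  have h2 := (σ i).2
  have h3 : (i : ℕ) < (σ i : ℕ) := h
  omega

theorem E0 : E 0 = 1 := by
  unfold E
  rw [Finset.sum_congr rfl (fun σ _ => by rw [exc_zero_of_subsingleton (by norm_num) σ])]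
  simp

theorem E1 : E 1 = 1 := by
  unfold E
  rw [Finset.sum_congr rfl (fun σ _ => by rw [exc_zero_of_subsingleton (by norm_num) σ])]
  simp

theorem rho_zero : rho 0 0 = 0 := by
  unfold rho S
  rw [if_pos rfl, E0]
  simp
  norm_num

theorem S_one : S 1 0 = -(1 / 4) := by
  unfold S
  rw [E1]
  simp
  norm_num

/-- the absolute values -/
noncomputable def a (i : ℕ) : ℝ := (-1) ^ (i + 1) * S (2 * i + 1) 0

theorem a_zero : a 0 = 1 / 4 := by
  unfold a
  rw [S_one]
  norm_num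

theorem rho_even (hP : TParity) (k : ℕ) (hk : k % 2 = 0) : rho k 0 = 0 := by
  by_cases h0 : k = 0
  · rw [h0]; exact rho_zero
  · have h := hP k (by omega) 0
    rw [neg_zero] at h
    have h2 : (-1 : ℝ) ^ (k + 1) = -1 := Odd.neg_one_pow (by rw [Nat.odd_iff]; omega)
    rw [h2] at h
    unfold rho
    rw [if_neg h0]
    linarith

theorem rho_odd (j : ℕ) : rho (2 * j + 1) 0 = (-1) ^ (j + 1) * a j := by
  unfold rho a
  rw [if_neg (by omega), ← mul_assoc, ← mul_pow]
  norm_num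

theorem a_step (hC : TConv) (hP : TParity) (i : ℕ) (ih : ∀ j, j ≤ i → 0 < a j) :
    (2 * (i : ℝ) + 1) / 2 * a i ≤ a (i + 1) := by
  have h := hC (2 * i + 1) 0
  have e : a (i + 1) = 2 * ∑ k ∈ Finset.range (2 * i + 1 + 1),
      ((-1) ^ (i + 2) * (((2 * i + 1).choose k : ℝ) * rho k 0 * rho (2 * i + 1 + 1 - k) 0)) := by
    unfold a
    rw [show 2 * (i + 1) + 1 = 2 * i + 1 + 2 by ring, h, ← Finset.mul_sum]
    ring
  have hterm : ∀ k ∈ Finset.range (2 * i + 1 + 1), 0 ≤
      ((-1 : ℝ) ^ (i + 2) * (((2 * i + 1).choose k : ℝ) * rho k 0 * rho (2 * i + 1 + 1 - k) 0)) := by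
    intro k hk
    rw [Finset.mem_range] at hk
    rcases Nat.even_or_odd k with hk2 | hk2
    · rw [rho_even hP k (Nat.even_iff.1 hk2)]
      simp
    · obtain ⟨j, rfl⟩ := hk2
      have hji : j ≤ i := by omega
      have e2 : 2 * i + 1 + 1 - (2 * j + 1) = 2 * (i - j) + 1 := by omega
      rw [e2, rho_odd, rho_odd]
      have e3 : (-1 : ℝ) ^ (i + 2) * (-1) ^ (j + 1) * (-1) ^ (i - j + 1) = 1 := by
        rw [← pow_add, ← pow_add]
        exact Even.neg_one_pow (by rw [Nat.even_iff]; omega)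
      have e4 : ((-1 : ℝ) ^ (i + 2) * (((2 * i + 1).choose (2 * j + 1) : ℝ) *
          ((-1) ^ (j + 1) * a j) * ((-1) ^ (i - j + 1) * a (i - j)))) =
          ((-1 : ℝ) ^ (i + 2) * (-1) ^ (j + 1) * (-1) ^ (i - j + 1)) *
          (((2 * i + 1).choose (2 * j + 1) : ℝ) * (a j * a (i - j))) := by ring
      rw [e4, e3, one_mul]
      have := ih j hji
      have := ih (i - j) (by omega)
      positivity
  have h1 : ((-1 : ℝ) ^ (i + 2) * (((2 * i + 1).choose 1 : ℝ) * rho 1 0 * rho (2 * i + 1 + 1 - 1) 0)) ≤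
      ∑ k ∈ Finset.range (2 * i + 1 + 1),
      ((-1) ^ (i + 2) * (((2 * i + 1).choose k : ℝ) * rho k 0 * rho (2 * i + 1 + 1 - k) 0)) :=
    Finset.single_le_sum hterm (Finset.mem_range.2 (by omega))
  have e5 : ((-1 : ℝ) ^ (i + 2) * (((2 * i + 1).choose 1 : ℝ) * rho 1 0 * rho (2 * i + 1 + 1 - 1) 0)) =
      (2 * (i : ℝ) + 1) * (a 0 * a i) := by
    have r1 : rho 1 0 = (-1) ^ (0 + 1) * a 0 := rho_odd 0
    have r2 : rho (2 * i + 1 + 1 - 1) 0 = (-1) ^ (i + 1) * a i := by
      rw [show 2 * i + 1 + 1 - 1 = 2 * i + 1 by omega]; exact rho_odd i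
    have e3 : (-1 : ℝ) ^ (i + 2) * (-1) ^ (0 + 1) * (-1) ^ (i + 1) = 1 := by
      rw [← pow_add, ← pow_add]
      exact Even.neg_one_pow (by rw [Nat.even_iff]; omega)
    rw [r1, r2, Nat.choose_one_right]
    push_cast
    linear_combination ((2 * (i : ℝ) + 1) * (a 0 * a i)) * e3
  rw [e5, a_zero] at h1
  rw [e]
  linarith

theorem a_pos (hC : TConv) (hP : TParity) (i : ℕ) : 0 < a i := by
  induction i using Nat.strong_induction_on with
  | _ i ih =>
    cases i with
    | zero => rw [a_zero]; norm_num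
    | succ i =>
      have h := a_step hC hP i (fun j hj => ih j (by omega))
      have h2 := ih i (by omega)
      have h3 : 0 < (2 * (i : ℝ) + 1) / 2 * a i := by positivity
      linarith

theorem a_five (hE : TExplicit) : a 5 = 353792 / 4096 := by
  unfold a S
  rw [show 2 * 5 + 1 = 11 by norm_num, hE.1]
  simp only [Real.exp_zero, eval_add, eval_mul, eval_pow, eval_X, eval_one, eval_ofNat]
  norm_num

theorem a_bound (hC : TConv) (hP : TParity) (hE : TExplicit) (i : ℕ) :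
    64 * (3 / 2 : ℝ) ^ (2 * i + 1) < a (i + 6) := by
  induction i with
  | zero =>
    have h := a_step hC hP 5 (fun j _ => a_pos hC hP j)
    rw [a_five hE] at h
    norm_num at h ⊢
    linarith
  | succ i ih =>
    have h := a_step hC hP (i + 6) (fun j _ => a_pos hC hP j)
    have e : (3 / 2 : ℝ) ^ (2 * (i + 1) + 1) = 9 / 4 * (3 / 2 : ℝ) ^ (2 * i + 1) := by
      rw [show 2 * (i + 1) + 1 = 2 * i + 1 + 2 by ring, pow_add]
      norm_num
      ring
    rw [e, show i + 1 + 6 = i + 6 + 1 by ring]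
    push_cast at h
    have hp := a_pos hC hP (i + 6)
    have hi : (0 : ℝ) ≤ i := Nat.cast_nonneg i
    nlinarith [mul_nonneg hi hp.le]

end Center

theorem tCenter (hC : TConv) (hP : TParity) (hE : TExplicit) (_ : TDeriv) : TCenter := by
  intro n hn hodd
  obtain ⟨i, rfl⟩ : ∃ i, n = 2 * (i + 6) + 1 := ⟨(n - 13) / 2, by omega⟩
  have h := Center.a_bound hC hP hE i
  have e1 : (2 * (i + 6) + 1 + 1) / 2 = i + 6 + 1 := by omega
  rw [e1]
  have e2 : (-1 : ℝ) ^ (i + 6 + 1) * S (2 * (i + 6) + 1) 0 = Center.a (i + 6) := rfl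
  rw [e2]
  have e3 : F (2 * (i + 6) + 1) 0 = 64 * (3 / 2 : ℝ) ^ (2 * i + 1) := by
    unfold F
    rw [mul_zero, Real.exp_zero, mul_one, show 2 * (i + 6) + 1 = 2 * i + 1 + 12 by ring, pow_add]
    field_simp
  rw [e3]
  exact h

end Q281ER
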