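import Pool.Agent.Q281.ER.Stmts

set_option autoImplicit false

namespace Q281ER

open Polynomial Filter Topology

private lemma E_zero' : E 0 = 1 := by
  unfold E
  rw [Fintype.sum_unique]
  simp [exc]

private lemma E_one' : E 1 = 1 := by
  unfold E
  rw [Fintype.sum_unique]
  have : exc (default : Equiv.Perm (Fin 1)) = 0 := by
    unfold exc
    rw [Finset.card_eq_zero, Finset.filter_eq_empty_iff]
    intro i _
    have := Subsingleton.elim i ((default : Equiv.Perm (Fin 1)) i)
    rw [← this]
    exact lt_irrefl _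
  rw [this, pow_zero]

private lemma S_one' (u : ℝ) : S 1 u = rho 0 u * rho 0 u - 1 / 4 := by
  have h : 0 < Real.exp u := Real.exp_pos u
  have h1 : (1 + Real.exp u) ≠ 0 := by positivity
  simp only [rho, S, E_zero', E_one', if_true, eval_one]
  field_simp
  ring

private lemma rho_succ (k : ℕ) (u : ℝ) : rho (k + 1) u = S (k + 1) u := by
  simp [rho]

private lemma rho_deriv (hD : TDeriv) (k : ℕ) (u : ℝ) : HasDerivAt (rho k) (rho (k + 1) u) u := by
  rw [rho_succ]
  by_cases hk : k = 0
  · subst hk
    have : rho 0 = fun u => S 0 u + 1 / 2 := by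
      funext v; simp [rho]
    rw [this]
    exact (hD 0 u).add_const _
  · have : rho k = S k := by
      funext v; simp [rho, hk]
    rw [this]
    exact hD k u

private lemma conv_anti (hD : TDeriv) (n : ℕ) : ∀ u : ℝ,
    S (n + 2) u = 2 * ∑ ij ∈ Finset.HasAntidiagonal.antidiagonal n,
      ((n.choose ij.1 : ℕ) : ℝ) * (rho ij.1 u * rho (ij.2 + 1) u) := by
  induction n with
  | zero =>
    intro u
    have h1 := hD 1 u
    have h2 : HasDerivAt (fun v => rho 0 v * rho 0 v - 1 / 4)
        (rho (0 + 1) u * rho 0 u + rho 0 u * rho (0 + 1) u) u :=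
      ((rho_deriv hD 0 u).mul (rho_deriv hD 0 u)).sub_const _
    have h3 : S 1 = fun v => rho 0 v * rho 0 v - 1 / 4 := by
      funext v; exact S_one' v
    rw [h3] at h1
    have := h1.unique h2
    simp only [Finset.Nat.antidiagonal_zero, Finset.sum_singleton, Nat.choose_self, Nat.cast_one]
    show S (1 + 1) u = _
    rw [this]
    ring
  | succ n ih =>
    intro u
    have h1 := hD (n + 2) u
    have h3 : S (n + 2) = fun u => 2 * ∑ ij ∈ Finset.HasAntidiagonal.antidiagonal n,
      ((n.choose ij.1 : ℕ) : ℝ) * (rho ij.1 u * rho (ij.2 + 1) u) := by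
      funext v; exact ih v
    rw [h3] at h1
    have h2 : HasDerivAt (fun u => 2 * ∑ ij ∈ Finset.HasAntidiagonal.antidiagonal n,
      ((n.choose ij.1 : ℕ) : ℝ) * (rho ij.1 u * rho (ij.2 + 1) u))
        (2 * ∑ ij ∈ Finset.HasAntidiagonal.antidiagonal n, ((n.choose ij.1 : ℕ) : ℝ) *
          (rho (ij.1 + 1) u * rho (ij.2 + 1) u + rho ij.1 u * rho (ij.2 + 1 + 1) u)) u := by
      apply HasDerivAt.const_mul
      apply HasDerivAt.fun_sum
      intro ij _
      apply HasDerivAt.const_mul
      exact (rho_deriv hD ij.1 u).mul (rho_deriv hD (ij.2 + 1) u)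
    have h4 := h1.unique h2
    show S (n + 2 + 1) u = _
    rw [h4]
    congr 1
    rw [Finset.sum_antidiagonal_choose_succ_mul (fun i j => rho i u * rho (j + 1) u) n,
      ← Finset.sum_add_distrib]
    apply Finset.sum_congr rfl
    intro ij hij
    rw [Finset.HasAntidiagonal.mem_antidiagonal] at hij
    have h5 : n.choose ij.2 = n.choose ij.1 := by
      rw [← Nat.choose_symm_of_eq_add (hij.symm.trans (add_comm _ _))]
    rw [h5]
    ring

theorem tConv (hD : TDeriv) : TConv := by
  intro n u
  rw [conv_anti hD n u, Finset.Nat.sum_antidiagonal_eq_sum_range_succ_mk]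
  congr 1
  apply Finset.sum_congr rfl
  intro k hk
  rw [Finset.mem_range] at hk
  have h : n - k + 1 = n + 1 - k := by omega
  simp only [h]
  ring

end Q281ER
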