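import Pool.Agent.Q281.ER.Stmts

set_option autoImplicit false

namespace Q281ER

open Polynomial Filter Topology

theorem tDeriv (hR : TRec) : TDeriv := by
  intro n u
  have hx : (0 : ℝ) < 1 + Real.exp u := by positivity
  have hx' : (1 + Real.exp u) ≠ 0 := hx.ne'
  have he := Real.hasDerivAt_exp u
  have h1 : HasDerivAt (fun u => (E n).eval (-Real.exp u))
      ((derivative (E n)).eval (-Real.exp u) * (-Real.exp u)) u :=
    HasDerivAt.comp (h₂ := fun y : ℝ => (E n).eval y) (h := fun u : ℝ => -Real.exp u) u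
      ((E n).hasDerivAt (-Real.exp u)) he.neg
  have h2 : HasDerivAt (fun u => -Real.exp u * (E n).eval (-Real.exp u))
      (-Real.exp u * (E n).eval (-Real.exp u) +
        -Real.exp u * ((derivative (E n)).eval (-Real.exp u) * (-Real.exp u))) u := he.neg.mul h1
  have h3 : HasDerivAt (fun u => (1 + Real.exp u) ^ (n + 1))
      (((n + 1 : ℕ) : ℝ) * (1 + Real.exp u) ^ n * Real.exp u) u := by
    have h6 : HasDerivAt (fun u => 1 + Real.exp u) (Real.exp u) u := he.const_add 1
    exact h6.fun_pow (n + 1)
  have h4 := h2.div h3 (pow_ne_zero _ hx')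
  have h5 : S (n + 1) u = ((-Real.exp u * (E n).eval (-Real.exp u) +
        -Real.exp u * ((derivative (E n)).eval (-Real.exp u) * (-Real.exp u))) *
          (1 + Real.exp u) ^ (n + 1) - -Real.exp u * (E n).eval (-Real.exp u) *
            (((n + 1 : ℕ) : ℝ) * (1 + Real.exp u) ^ n * Real.exp u)) /
              ((1 + Real.exp u) ^ (n + 1)) ^ 2 := by
    unfold S
    rw [hR n, div_eq_div_iff (pow_ne_zero _ hx') (pow_ne_zero _ (pow_ne_zero _ hx'))]
    simp only [eval_add, eval_mul, eval_one, eval_natCast, eval_X, eval_sub, Nat.cast_add,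
      Nat.cast_one]
    ring
  rw [h5]
  exact h4

end Q281ER
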