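import Pool.Agent.Q281.ER.Stmts

/-! `ER.Det`: the generating function of signs of the excedance statistic is `(1 - X)^(n-1)`. -/

set_option autoImplicit false

namespace Q281ER

open Polynomial

/-- the sign generating function of excedances -/
theorem tDet : TDet := by
  intro n hn
  obtain ⟨m, rfl⟩ : ∃ m, n = m + 1 := ⟨n - 1, by omega⟩
  let M : Matrix (Fin (m + 1)) (Fin (m + 1)) ℝ[X] := Matrix.of fun a b => if b < a then X else 1
  let N : Matrix (Fin (m + 1)) (Fin (m + 1)) ℝ[X] :=
    Matrix.of fun a b => if a = 0 then 1 else if (b : ℕ) + 1 = a then X - 1 else 0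
  have h1 : Aplus (m + 1) - Aminus (m + 1) = M.det := by
    rw [Matrix.det_apply, Aplus, Aminus]
    have hprod : ∀ σ : Equiv.Perm (Fin (m + 1)), ∏ i, M (σ i) i = X ^ exc σ := by
      intro σ
      simp only [M, Matrix.of_apply]
      rw [Finset.prod_ite, Finset.prod_const, Finset.prod_const_one, mul_one]
      rfl
    simp_rw [hprod]
    rw [Finset.sum_filter, Finset.sum_filter, ← Finset.sum_sub_distrib]
    refine Finset.sum_congr rfl fun σ _ => ?_
    rcases Int.units_eq_one_or (Equiv.Perm.sign σ) with h | h
    · simp [h]
    · simp [h]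
  have h2 : M.det = N.det := by
    refine Matrix.det_eq_of_forall_row_eq_smul_add_pred (fun _ => 1) ?_ ?_
    · intro j
      simp [M, N]
    · intro i j
      simp only [M, N, Matrix.of_apply, one_mul]
      rw [if_neg (Fin.succ_ne_zero i)]
      simp only [Fin.lt_def, Fin.val_succ, Fin.val_castSucc]
      rcases lt_trichotomy (j : ℕ) (i : ℕ) with h | h | h
      · rw [if_pos (by omega), if_neg (by omega), if_pos h, zero_add]
      · rw [if_pos (by omega), if_pos (by omega), if_neg (by omega)]
        ring
      · rw [if_neg (by omega), if_neg (by omega), if_neg (by omega), zero_add]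
  have h3 : N.det = (1 - X) ^ m := by
    rw [Matrix.det_succ_column N (Fin.last m), Fin.sum_univ_succ]
    have hz : ∀ i : Fin m, N i.succ (Fin.last m) = 0 := by
      intro i
      have := i.2
      simp only [N, Matrix.of_apply]
      rw [if_neg (Fin.succ_ne_zero i), if_neg]
      simp only [Fin.val_last, Fin.val_succ]
      omega
    simp only [hz, mul_zero, zero_mul, Finset.sum_const_zero, add_zero]
    have hN0 : N 0 (Fin.last m) = 1 := by simp [N]
    have hsub : N.submatrix (Fin.succAbove 0) (Fin.last m).succAbove
        = Matrix.diagonal (fun _ : Fin m => (X - 1 : ℝ[X])) := by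
      ext a b
      simp only [Matrix.submatrix_apply, Fin.succAbove_zero, Fin.succAbove_last, N, Matrix.of_apply,
        Matrix.diagonal_apply]
      rw [if_neg (Fin.succ_ne_zero a)]
      simp only [Fin.val_succ, Fin.val_castSucc]
      by_cases hab : a = b
      · subst hab; simp
      · rw [if_neg hab, if_neg]
        intro h
        exact hab (Fin.ext (by omega))
    rw [hN0, hsub, Matrix.det_diagonal]
    simp only [Fin.val_zero, Fin.val_last, zero_add, mul_one, Finset.prod_const, Finset.card_univ,
      Fintype.card_fin]
    rw [← mul_pow]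
    ring
  rw [h1, h2, h3]
  rfl

end Q281ER
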