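import Pool.Agent.Q281.ER.Stmts

set_option autoImplicit false

namespace Q281ER

theorem tDom : TDom := by
  intro n hn u hu
  obtain ⟨k, rfl⟩ := Nat.exists_eq_add_of_le hn
  have hx : 0 < Real.exp u := Real.exp_pos u
  have hy : 0 < Real.exp (u / 2) := Real.exp_pos _
  have hyy : Real.exp (u / 2) ^ 2 = Real.exp u := by
    rw [← Real.exp_nat_mul]
    congr 1
    push_cast
    ring
  have h32 : Real.exp (3 / 2 * u) = Real.exp u * Real.exp (u / 2) := by
    rw [← Real.exp_add]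
    congr 1
    ring
  have hF : F (12 + k) u = (64 * (3 / 2) ^ k * Real.exp (u / 2)) * Real.exp u := by
    unfold F
    rw [h32, pow_add]
    field_simp
  have hlow : ((2 : ℝ) ^ (12 + k))⁻¹ ≤ Real.exp u := by
    have h1 : ((2 : ℝ) ^ (12 + k))⁻¹ = Real.exp (-(((12 + k : ℕ) : ℝ) * Real.log 2)) := by
      rw [Real.exp_neg, Real.exp_nat_mul, Real.exp_log (by norm_num)]
    rw [h1]
    exact Real.exp_le_exp.2 hu
  have hc : 1 ≤ (64 * (3 / 2 : ℝ) ^ k * Real.exp (u / 2)) ^ 2 := by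
    have h1 : (64 * (3 / 2 : ℝ) ^ k * Real.exp (u / 2)) ^ 2 =
        4096 * (9 / 4) ^ k * Real.exp u := by
      rw [mul_pow, mul_pow, hyy, ← pow_mul, mul_comm k 2, pow_mul]
      norm_num
    rw [h1]
    have h2 : (2 : ℝ) ^ k ≤ (9 / 4) ^ k := pow_le_pow_left₀ (by norm_num) (by norm_num) k
    have h3 : (1 : ℝ) = 4096 * 2 ^ k * ((2 : ℝ) ^ (12 + k))⁻¹ := by
      rw [pow_add]
      have : (2 : ℝ) ^ k ≠ 0 := by positivity
      field_simp
      norm_num
    calc (1 : ℝ) = 4096 * 2 ^ k * ((2 : ℝ) ^ (12 + k))⁻¹ := h3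
      _ ≤ 4096 * (9 / 4) ^ k * Real.exp u :=
        mul_le_mul (by linarith) hlow (by positivity) (by positivity)
  have hc1 : 1 ≤ 64 * (3 / 2 : ℝ) ^ k * Real.exp (u / 2) := by
    by_contra hcon
    rw [not_le] at hcon
    have hpos : 0 < 64 * (3 / 2 : ℝ) ^ k * Real.exp (u / 2) := by positivity
    nlinarith
  rw [hF]
  have h5 : Real.exp u / (1 + Real.exp u) ^ 2 < Real.exp u := by
    rw [div_lt_iff₀ (by positivity)]
    nlinarith [mul_pos hx hx]
  calc _ < Real.exp u := h5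
    _ = 1 * Real.exp u := (one_mul _).symm
    _ ≤ _ := mul_le_mul_of_nonneg_right hc1 hx.le

end Q281ER
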