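import Pool.Agent.Q281.ER.Stmts

set_option autoImplicit false

namespace Q281ER

open Polynomial

theorem tExplicit (hR : TRec) : TExplicit := by
  have e0 : E 0 = 1 := by simp [E, exc]
  have e1 : E 1 = 1 := by rw [hR 0, e0]; simp
  have e2 : E 2 = 1 + X ^ 1 := by
    rw [hR 1, e1]
    simp only [derivative_add, derivative_mul, derivative_X_pow, derivative_X, derivative_one, derivative_ofNat,
      Nat.cast_ofNat, Nat.cast_one, map_ofNat, map_one, Nat.reduceSub, pow_zero, pow_one]
    ring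
  have e3 : E 3 = 1 + 4 * X ^ 1 + X ^ 2 := by
    rw [hR 2, e2]
    simp only [derivative_add, derivative_mul, derivative_X_pow, derivative_X, derivative_one, derivative_ofNat,
      Nat.cast_ofNat, Nat.cast_one, map_ofNat, map_one, Nat.reduceSub, pow_zero, pow_one]
    ring
  have e4 : E 4 = 1 + 11 * X ^ 1 + 11 * X ^ 2 + X ^ 3 := by
    rw [hR 3, e3]
    simp only [derivative_add, derivative_mul, derivative_X_pow, derivative_X, derivative_one, derivative_ofNat,
      Nat.cast_ofNat, Nat.cast_one, map_ofNat, map_one, Nat.reduceSub, pow_zero, pow_one]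
    ring
  have e5 : E 5 = 1 + 26 * X ^ 1 + 66 * X ^ 2 + 26 * X ^ 3 + X ^ 4 := by
    rw [hR 4, e4]
    simp only [derivative_add, derivative_mul, derivative_X_pow, derivative_X, derivative_one, derivative_ofNat,
      Nat.cast_ofNat, Nat.cast_one, map_ofNat, map_one, Nat.reduceSub, pow_zero, pow_one]
    ring
  have e6 : E 6 = 1 + 57 * X ^ 1 + 302 * X ^ 2 + 302 * X ^ 3 + 57 * X ^ 4 + X ^ 5 := by
    rw [hR 5, e5]
    simp only [derivative_add, derivative_mul, derivative_X_pow, derivative_X, derivative_one, derivative_ofNat,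
      Nat.cast_ofNat, Nat.cast_one, map_ofNat, map_one, Nat.reduceSub, pow_zero, pow_one]
    ring
  have e7 : E 7 = 1 + 120 * X ^ 1 + 1191 * X ^ 2 + 2416 * X ^ 3 + 1191 * X ^ 4 + 120 * X ^ 5 + X ^ 6 := by
    rw [hR 6, e6]
    simp only [derivative_add, derivative_mul, derivative_X_pow, derivative_X, derivative_one, derivative_ofNat,
      Nat.cast_ofNat, Nat.cast_one, map_ofNat, map_one, Nat.reduceSub, pow_zero, pow_one]
    ring
  have e8 : E 8 = 1 + 247 * X ^ 1 + 4293 * X ^ 2 + 15619 * X ^ 3 + 15619 * X ^ 4 + 4293 * X ^ 5 + 247 * X ^ 6 + X ^ 7 := by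
    rw [hR 7, e7]
    simp only [derivative_add, derivative_mul, derivative_X_pow, derivative_X, derivative_one, derivative_ofNat,
      Nat.cast_ofNat, Nat.cast_one, map_ofNat, map_one, Nat.reduceSub, pow_zero, pow_one]
    ring
  have e9 : E 9 = 1 + 502 * X ^ 1 + 14608 * X ^ 2 + 88234 * X ^ 3 + 156190 * X ^ 4 + 88234 * X ^ 5 + 14608 * X ^ 6 + 502 * X ^ 7 + X ^ 8 := by
    rw [hR 8, e8]
    simp only [derivative_add, derivative_mul, derivative_X_pow, derivative_X, derivative_one, derivative_ofNat,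
      Nat.cast_ofNat, Nat.cast_one, map_ofNat, map_one, Nat.reduceSub, pow_zero, pow_one]
    ring
  have e10 : E 10 = 1 + 1013 * X ^ 1 + 47840 * X ^ 2 + 455192 * X ^ 3 + 1310354 * X ^ 4 + 1310354 * X ^ 5 + 455192 * X ^ 6 + 47840 * X ^ 7 + 1013 * X ^ 8 + X ^ 9 := by
    rw [hR 9, e9]
    simp only [derivative_add, derivative_mul, derivative_X_pow, derivative_X, derivative_one, derivative_ofNat,
      Nat.cast_ofNat, Nat.cast_one, map_ofNat, map_one, Nat.reduceSub, pow_zero, pow_one]
    ring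
  have e11 : E 11 = 1 + 2036 * X ^ 1 + 152637 * X ^ 2 + 2203488 * X ^ 3 + 9738114 * X ^ 4 + 15724248 * X ^ 5 + 9738114 * X ^ 6 + 2203488 * X ^ 7 + 152637 * X ^ 8 + 2036 * X ^ 9 + X ^ 10 := by
    rw [hR 10, e10]
    simp only [derivative_add, derivative_mul, derivative_X_pow, derivative_X, derivative_one, derivative_ofNat,
      Nat.cast_ofNat, Nat.cast_one, map_ofNat, map_one, Nat.reduceSub, pow_zero, pow_one]
    ring
  have e12 : E 12 = 1 + 4083 * X ^ 1 + 478271 * X ^ 2 + 10187685 * X ^ 3 + 66318474 * X ^ 4 + 162512286 * X ^ 5 + 162512286 * X ^ 6 + 66318474 * X ^ 7 + 10187685 * X ^ 8 + 478271 * X ^ 9 + 4083 * X ^ 10 + X ^ 11 := by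
    rw [hR 11, e11]
    simp only [derivative_add, derivative_mul, derivative_X_pow, derivative_X, derivative_one, derivative_ofNat,
      Nat.cast_ofNat, Nat.cast_one, map_ofNat, map_one, Nat.reduceSub, pow_zero, pow_one]
    ring
  exact ⟨e11, e6, e7, e8, e9, e10, e12⟩

end Q281ER
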