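import Pool.Agent.Q281.ER.Stmts

set_option autoImplicit false

/-! # The first and the last coefficient and the degree of the Eulerian polynomials -/

namespace Q281ER

open Polynomial

theorem LeadAux.E_zero : E 0 = 1 := by
  unfold E
  rw [Fintype.sum_unique]
  have h : exc (default : Equiv.Perm (Fin 0)) = 0 := by
    unfold exc
    rw [Finset.card_eq_zero, Finset.filter_eq_empty_iff]
    intro i
    exact i.elim0
  rw [h, pow_zero]

theorem LeadAux.E_one (hR : TRec) : E 1 = 1 := by
  have h := hR 0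
  rw [LeadAux.E_zero] at h
  simpa using h

theorem LeadAux.coeff_zero (hR : TRec) (n : ℕ) : (E (n + 1)).coeff 0 = (E n).coeff 0 := by
  rw [hR n]
  simp [Polynomial.mul_coeff_zero]

theorem LeadAux.coeff_succ (hR : TRec) (n m : ℕ) :
    (E (n + 1)).coeff (m + 1) =
      ((m : ℝ) + 2) * (E n).coeff (m + 1) + ((n : ℝ) - m) * (E n).coeff m := by
  have e : E (n + 1) = E n + C (n : ℝ) * (E n * X) + derivative (E n) * X -
      derivative (E n) * X ^ 2 := by
    rw [hR n]
    have : ((n : ℕ) : ℝ[X]) = C (n : ℝ) := by simp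
    rw [this]
    ring
  rw [e, coeff_sub, coeff_add, coeff_add, coeff_C_mul, coeff_mul_X, coeff_mul_X, coeff_derivative]
  rcases m with _ | m
  · have h : (derivative (E n) * X ^ 2).coeff (0 + 1) = 0 := by
      rw [coeff_mul_X_pow']
      simp
    rw [h]
    push_cast
    ring
  · have h : (derivative (E n) * X ^ 2).coeff (m + 1 + 1) = (derivative (E n)).coeff m := by
      rw [show m + 1 + 1 = m + 2 from rfl, coeff_mul_X_pow]
    rw [h, coeff_derivative]
    push_cast
    ring

theorem LeadAux.ind (hR : TRec) (k : ℕ) : (E (k + 1)).coeff 0 = 1 ∧ (E (k + 1)).coeff k = 1 ∧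
    ∀ m, k + 1 ≤ m → (E (k + 1)).coeff m = 0 := by
  induction k with
  | zero =>
    rw [zero_add, LeadAux.E_one hR]
    refine ⟨by simp, by simp, fun m hm => ?_⟩
    rw [coeff_one, if_neg (by omega)]
  | succ k ih =>
    obtain ⟨h0, h1, h2⟩ := ih
    refine ⟨by rw [LeadAux.coeff_zero hR, h0], ?_, ?_⟩
    · rw [LeadAux.coeff_succ hR, h2 (k + 1) le_rfl, h1]
      push_cast
      ring
    · intro m hm
      obtain ⟨m, rfl⟩ : ∃ m', m = m' + 1 := ⟨m - 1, by omega⟩
      rw [LeadAux.coeff_succ hR, h2 (m + 1) (by omega), h2 m (by omega)]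
      ring

theorem tLead (hR : TRec) : TLead := by
  intro n hn
  obtain ⟨k, rfl⟩ : ∃ k, n = k + 1 := ⟨n - 1, by omega⟩
  obtain ⟨h0, h1, h2⟩ := LeadAux.ind hR k
  rw [Nat.add_sub_cancel]
  refine ⟨h0, h1, le_antisymm ?_ ?_⟩
  · rw [natDegree_le_iff_coeff_eq_zero]
    intro m hm
    exact h2 m hm
  · apply le_natDegree_of_ne_zero
    rw [h1]
    exact one_ne_zero

end Q281ER
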