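import Pool.Agent.Q281.ER.Stmts

set_option autoImplicit false

namespace Q281ER

open Polynomial Filter Topology

theorem tMinus (hDet : TDet) (hRoots : TRoots) (hLead : TLead) : TMinus := by
  intro n hn hA
  obtain ⟨t, ht0, htm, hts⟩ := hA
  have hE : E n = Aplus n + Aminus n := by
    unfold E Aplus Aminus
    rw [← Finset.sum_filter_add_sum_filter_not Finset.univ
      (fun σ : Equiv.Perm (Fin n) => Equiv.Perm.sign σ = 1)]
    congr 1
    refine Finset.sum_congr ?_ (fun _ _ => rfl)
    ext σ
    rcases Int.units_eq_one_or (Equiv.Perm.sign σ) with h | h <;> simp [h]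
  obtain ⟨D, hD⟩ : ∃ D : ℝ[X], D = E n - (1 - X) ^ (n - 1) := ⟨_, rfl⟩
  have hD2 : D = 2 * Aminus n := by
    have := hDet n (by omega)
    rw [hD, hE, ← this]; ring
  obtain ⟨l0, l1, l2⟩ := hLead n (by omega)
  have hc0 : D.coeff 0 = 0 := by
    rw [hD, coeff_sub, l0]
    simp [coeff_zero_eq_eval_zero]
  obtain ⟨Q, hQ⟩ : ∃ Q : ℝ[X], Q = D.divX := ⟨_, rfl⟩
  have hDQ : D = Q * X := by
    have := divX_mul_X_add D
    rw [hc0] at this
    rw [hQ]
    simpa using this.symm
  have hQs : ∀ j, j < n - 2 → 0 < (-1 : ℝ) ^ j * Q.eval (t j) := by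
    intro j hj
    have h1 := hts j hj
    have h2 := ht0 j hj
    have h3 : D.eval (t j) = (E n).eval (t j) - (1 - t j) ^ (n - 1) := by
      rw [hD]; simp
    have h4 : D.eval (t j) = Q.eval (t j) * t j := by rw [hDQ]; simp
    have h5 : 0 < (1 - t j) ^ (n - 1) := pow_pos (by linarith) _
    have h6 : (-1 : ℝ) ^ (j + 1) * (1 - t j) ^ (n - 1) ≤ (1 - t j) ^ (n - 1) := by
      rcases neg_one_pow_eq_or ℝ (j + 1) with h | h <;> rw [h] <;> linarith
    have h7 : 0 < (-1 : ℝ) ^ (j + 1) * D.eval (t j) := by
      rw [h3, mul_sub]; linarith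
    rw [h4] at h7
    have h8 : (-1 : ℝ) ^ (j + 1) * (Q.eval (t j) * t j) =
        ((-1 : ℝ) ^ j * Q.eval (t j)) * (-(t j)) := by ring
    rw [h8] at h7
    exact (pos_iff_pos_of_mul_pos h7).2 (by linarith)
  have hch : ∀ j, j + 1 < n - 2 → Q.eval (t j) * Q.eval (t (j + 1)) < 0 := by
    intro j hj
    have h1 := hQs j (by omega)
    have h2 := hQs (j + 1) hj
    have h3 := mul_pos h1 h2
    have h4 : (-1 : ℝ) ^ j * Q.eval (t j) * ((-1 : ℝ) ^ (j + 1) * Q.eval (t (j + 1))) =
        -(Q.eval (t j) * Q.eval (t (j + 1))) * ((-1 : ℝ) ^ j * (-1 : ℝ) ^ j) := by ring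
    have h5 : (-1 : ℝ) ^ j * (-1 : ℝ) ^ j = 1 := by
      rw [← mul_pow]; simp
    rw [h4, h5] at h3
    linarith
  have hQ0 : Q ≠ 0 := by
    rintro rfl
    have := hQs 0 (by omega)
    simp at this
  have hl : ((1 : ℝ[X]) - X).natDegree ≤ 1 := by
    refine (natDegree_sub_le _ _).trans ?_
    simp
  have hpw : (((1 : ℝ[X]) - X) ^ (n - 1)).natDegree ≤ n - 1 := by
    refine natDegree_pow_le.trans ?_
    calc (n - 1) * ((1 : ℝ[X]) - X).natDegree ≤ (n - 1) * 1 := Nat.mul_le_mul_left _ hl
      _ = n - 1 := by ring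
  have hDdeg : D.natDegree ≤ n - 1 := by
    rw [hD]
    exact natDegree_sub_le_of_le l2.le hpw |>.trans (by simp)
  have hcn : D.coeff (n - 1) = 1 - (-1) ^ (n - 1) := by
    rw [hD, coeff_sub, l1]
    have := coeff_pow_of_natDegree_le (m := n - 1) hl
    rw [mul_one] at this
    rw [this]
    simp [coeff_one]
  have hQdeg : Q.natDegree = D.natDegree - 1 := by
    rw [hQ]; exact natDegree_divX_eq_natDegree_tsub_one
  -- reduction to `Q`
  have hred : RealRooted Q → RealRooted (Aminus n) := by
    intro hr z hz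
    have h1 : aeval z D = 0 := by rw [hD2, map_mul, hz, mul_zero]
    rw [hDQ, map_mul, aeval_X] at h1
    rcases mul_eq_zero.1 h1 with h | h
    · exact hr z h
    · rw [h]; simp
  apply hred
  rcases Nat.even_or_odd n with hev | hod
  · -- `n` even: one more sign change at `-∞`
    have hodd : Odd (n - 1) := by
      obtain ⟨k, hk⟩ := hev
      exact ⟨k - 1, by omega⟩
    have hc : D.coeff (n - 1) = 2 := by rw [hcn, hodd.neg_one_pow]; norm_num
    have hDn : D.natDegree = n - 1 :=
      natDegree_eq_of_le_of_coeff_ne_zero hDdeg (by rw [hc]; norm_num)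
    have hQn : Q.natDegree = n - 2 := by rw [hQdeg, hDn]; omega
    have hQl : Q.leadingCoeff = 2 := by
      rw [leadingCoeff, hQn, hQ, coeff_divX, show n - 2 + 1 = n - 1 by omega, hc]
    have hX : (-X : ℝ[X]).natDegree = 1 := by rw [natDegree_neg, natDegree_X]
    have hR : Tendsto (fun y : ℝ => (Q.comp (-X)).eval y) atTop atTop := by
      apply tendsto_atTop_of_leadingCoeff_nonneg
      · rw [← natDegree_pos_iff_degree_pos, natDegree_comp, hX, hQn]
        obtain ⟨k, hk⟩ := hev
        omega
      · rw [leadingCoeff_comp (by rw [hX]; norm_num), hQl, leadingCoeff_neg, leadingCoeff_X, hQn]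
        have he : Even (n - 2) := by
          obtain ⟨k, hk⟩ := hev
          exact ⟨k - 1, by omega⟩
        rw [he.neg_one_pow]
        norm_num
    obtain ⟨y, hy1, hy2⟩ := ((hR.eventually_gt_atTop 0).and
      (eventually_gt_atTop (-(t (n - 3))))).exists
    have hy3 : 0 < Q.eval (-y) := by simpa [eval_comp] using hy1
    refine hRoots Q (n - 2) (fun j => if j < n - 2 then t j else -y) hQn.le hQ0 ?_ ?_
    · intro i j hij hj
      rcases Nat.lt_or_ge j (n - 2) with h | h
      · have h' : i < n - 2 := by omega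
        simp only [h, h', if_true]
        exact htm i j hij h
      · have h' : i < n - 2 := by omega
        have h'' : ¬ j < n - 2 := by omega
        simp only [h', h'', if_true, if_false]
        rcases Nat.lt_or_ge i (n - 3) with h3 | h3
        · have := htm i (n - 3) h3 (by omega)
          linarith
        · have : i = n - 3 := by omega
          rw [this]
          linarith
    · intro j hj
      rcases Nat.lt_or_ge (j + 1) (n - 2) with h | h
      · simp only [hj, h, if_true]
        exact hch j h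
      · have h'' : ¬ j + 1 < n - 2 := by omega
        simp only [hj, h'', if_true, if_false]
        have h3 := hQs j hj
        have ho : Odd j := by
          obtain ⟨k, hk⟩ := hev
          exact ⟨k - 2, by omega⟩
        rw [ho.neg_one_pow] at h3
        have : Q.eval (t j) < 0 := by linarith
        exact mul_neg_of_neg_of_pos this hy3
  · have heven : Even (n - 1) := by
      obtain ⟨k, hk⟩ := hod
      exact ⟨k, by omega⟩
    have hc : D.coeff (n - 1) = 0 := by rw [hcn, heven.neg_one_pow]; norm_num
    have hDn : D.natDegree ≤ n - 2 := by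
      rcases Nat.lt_or_ge D.natDegree (n - 1) with h | h
      · omega
      · exfalso
        have h1 : D.natDegree = n - 1 := le_antisymm hDdeg h
        have h2 : D.leadingCoeff = 0 := by rw [leadingCoeff, h1, hc]
        have h3 : D = 0 := leadingCoeff_eq_zero.1 h2
        rw [h3] at h1
        simp at h1
        omega
    have hQn : Q.natDegree ≤ n - 3 := by rw [hQdeg]; omega
    refine hRoots Q (n - 3) t hQn hQ0 ?_ ?_
    · intro i j hij hj
      exact htm i j hij (by omega)
    · intro j hj
      exact hch j (by omega)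

end Q281ER
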