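import Pool.Agent.Q281.ER.Stmts

set_option autoImplicit false

namespace Q281ER

open Polynomial Filter Topology

private theorem neg_ratio {n : ℕ} {x : ℝ} (hx0 : 0 < x) (hx : x * 2 ^ n ≤ 1) (k : ℕ) :
    ((k : ℝ) + 2) ^ n * x ≤ ((k : ℝ) + 1) ^ n := by
  have h1 : ((k : ℝ) + 2) ^ n ≤ (2 * ((k : ℝ) + 1)) ^ n := by
    apply pow_le_pow_left₀ (by positivity)
    have : (0 : ℝ) ≤ k := Nat.cast_nonneg k
    linarith
  rw [mul_pow] at h1
  have h2 : 0 < ((k : ℝ) + 1) ^ n := by positivity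
  calc ((k : ℝ) + 2) ^ n * x ≤ (2 ^ n * ((k : ℝ) + 1) ^ n) * x :=
        mul_le_mul_of_nonneg_right h1 hx0.le
    _ = (x * 2 ^ n) * ((k : ℝ) + 1) ^ n := by ring
    _ ≤ 1 * ((k : ℝ) + 1) ^ n := mul_le_mul_of_nonneg_right hx h2.le
    _ = _ := one_mul _

private theorem neg_ratio_lt {n : ℕ} (hn : 1 ≤ n) {x : ℝ} (hx0 : 0 < x) (hx : x * 2 ^ n ≤ 1)
    (k : ℕ) (hk : 1 ≤ k) : ((k : ℝ) + 2) ^ n * x < ((k : ℝ) + 1) ^ n := by
  have h1 : ((k : ℝ) + 2) ^ n < (2 * ((k : ℝ) + 1)) ^ n := by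
    apply pow_lt_pow_left₀ _ (by positivity) (by omega)
    have : (1 : ℝ) ≤ k := by exact_mod_cast hk
    linarith
  rw [mul_pow] at h1
  have h2 : 0 < ((k : ℝ) + 1) ^ n := by positivity
  calc ((k : ℝ) + 2) ^ n * x < (2 ^ n * ((k : ℝ) + 1) ^ n) * x :=
        mul_lt_mul_of_pos_right h1 hx0
    _ = (x * 2 ^ n) * ((k : ℝ) + 1) ^ n := by ring
    _ ≤ 1 * ((k : ℝ) + 1) ^ n := mul_le_mul_of_nonneg_right hx h2.le
    _ = _ := one_mul _

theorem tNeg (hS : TSeries) : TNeg := by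
  intro n hn u hu
  have hlog : 0 < Real.log 2 := Real.log_pos (by norm_num)
  have hnr : (1 : ℝ) ≤ n := by exact_mod_cast hn
  have hu0 : u < 0 := by nlinarith
  have hsum := hS n hn u hu0
  set x : ℝ := Real.exp u with hxdef
  have hx0 : 0 < x := Real.exp_pos u
  have hx : x * 2 ^ n ≤ 1 := by
    have h1 : x ≤ Real.exp (-(n * Real.log 2)) := Real.exp_le_exp.2 hu
    have h2 : Real.exp (-(n * Real.log 2)) = ((2 : ℝ) ^ n)⁻¹ := by
      rw [Real.exp_neg, Real.exp_nat_mul, Real.exp_log (by norm_num)]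
    rw [h2] at h1
    have h3 : (0 : ℝ) < 2 ^ n := by positivity
    calc x * 2 ^ n ≤ ((2 : ℝ) ^ n)⁻¹ * 2 ^ n := mul_le_mul_of_nonneg_right h1 h3.le
      _ = 1 := inv_mul_cancel₀ h3.ne'
  have hexp : ∀ k : ℕ, Real.exp (((k : ℝ) + 1) * u) = x ^ (k + 1) := by
    intro k
    rw [hxdef, ← Real.exp_nat_mul]
    push_cast
    ring_nf
  set f : ℕ → ℝ := fun k : ℕ => (-1 : ℝ) ^ (k + 1) * ((k : ℝ) + 1) ^ n *
    Real.exp (((k : ℝ) + 1) * u) with hf
  have he : Summable fun k => f (2 * k) :=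
    hsum.summable.comp_injective (i := fun k => 2 * k) (fun a b h => by simpa using h)
  have ho : Summable fun k => f (2 * k + 1) :=
    hsum.summable.comp_injective (i := fun k => 2 * k + 1) (fun a b h => by simpa using h)
  have htot := tsum_even_add_odd he ho
  rw [hsum.tsum_eq, ← he.tsum_add ho] at htot
  have hval : ∀ k, f (2 * k) + f (2 * k + 1) =
      -(x ^ (2 * k + 1) * ((((2 * k : ℕ) : ℝ) + 1) ^ n - (((2 * k : ℕ) : ℝ) + 2) ^ n * x)) := by
    intro k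
    simp only [hf]
    rw [hexp, hexp]
    have e1 : (-1 : ℝ) ^ (2 * k + 1) = -1 := by rw [pow_succ, pow_mul]; simp
    have e2 : (-1 : ℝ) ^ (2 * k + 1 + 1) = 1 := by rw [pow_succ, e1]; ring
    rw [e1, e2]
    push_cast
    ring
  have hpos : 0 < ∑' k, -(f (2 * k) + f (2 * k + 1)) := by
    refine Summable.tsum_pos (he.add ho).neg (fun k => ?_) 1 ?_
    · rw [hval, neg_neg]
      have := neg_ratio hx0 hx (2 * k)
      exact mul_nonneg (by positivity) (by linarith)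
    · rw [hval, neg_neg]
      have := neg_ratio_lt hn hx0 hx (2 * 1) (by norm_num)
      exact mul_pos (by positivity) (by linarith)
  rw [tsum_neg, htot] at hpos
  linarith

end Q281ER
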