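import Pool.Agent.Q281.ER.Stmts

set_option autoImplicit false

namespace Q281ER

open Polynomial Filter Topology

private theorem parE1 : E 1 = 1 := by
  unfold E
  rw [Fintype.sum_unique]
  simp [exc]

private theorem parS1 (u : ℝ) : S 1 (-u) = S 1 u := by
  unfold S
  rw [parE1]
  simp only [Polynomial.eval_one, mul_one]
  have h1 : Real.exp (-u) = (Real.exp u)⁻¹ := Real.exp_neg u
  rw [h1]
  have h2 : 0 < Real.exp u := Real.exp_pos u
  have h3 : Real.exp u ≠ 0 := h2.ne'
  have h4 : 1 + Real.exp u ≠ 0 := by positivity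
  have h5 : 1 + (Real.exp u)⁻¹ = (1 + Real.exp u) / Real.exp u := by
    field_simp
    ring
  rw [h5, div_pow]
  field_simp

theorem tParity (hD : TDeriv) : TParity := by
  intro n hn
  induction n, hn using Nat.le_induction with
  | base =>
    intro u
    rw [parS1]
    norm_num
  | succ n hn ih =>
    intro u
    have h1 : HasDerivAt (fun u => S n (-u)) (S (n + 1) (-u) * (-1)) u :=
      (hD n (-u)).comp u (hasDerivAt_neg u)
    have h2 : HasDerivAt (fun u => (-1) ^ (n + 1) * S n u) ((-1) ^ (n + 1) * S (n + 1) u) u :=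
      (hD n u).const_mul _
    have h3 : (fun u => S n (-u)) = fun u => (-1) ^ (n + 1) * S n u := funext ih
    rw [h3] at h1
    have h4 := h1.unique h2
    rw [pow_succ]
    linarith

end Q281ER
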