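import Pool.Agent.Q281.ER.Stmts

set_option autoImplicit false

namespace Q281ER

open Polynomial Filter Topology

theorem plus_split (n : ℕ) : E n = Aplus n + Aminus n := by
  unfold E Aplus Aminus
  rw [← Finset.sum_filter_add_sum_filter_not Finset.univ
    (fun σ : Equiv.Perm (Fin n) => Equiv.Perm.sign σ = 1)]
  congr 1
  apply Finset.sum_congr _ (fun _ _ => rfl)
  ext σ
  simp only [Finset.mem_filter, Finset.mem_univ, true_and]
  rcases Int.units_eq_one_or (Equiv.Perm.sign σ) with h | h
  · rw [h]; decide
  · rw [h]; decide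

theorem plus_two (hD : TDet) (n : ℕ) (hn : 1 ≤ n) : 2 * Aplus n = E n + (1 - X) ^ (n - 1) := by
  rw [← hD n hn, plus_split n]; ring

theorem plus_eval (hD : TDet) (n : ℕ) (hn : 1 ≤ n) (t : ℝ) :
    2 * (Aplus n).eval t = (E n).eval t + (1 - t) ^ (n - 1) := by
  have h := congrArg (eval t) (plus_two hD n hn)
  simpa using h

theorem one_sub_coeff (m : ℕ) : ((1 - X : ℝ[X]) ^ m).coeff m = (-1) ^ m := by
  have h1 : (1 - X : ℝ[X]).natDegree ≤ 1 := by
    compute_degree
  have h := coeff_pow_of_natDegree_le (m := m) h1
  rw [mul_one] at h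
  rw [h]
  congr 1
  simp [coeff_one]

theorem one_sub_natDegree (m : ℕ) : ((1 - X : ℝ[X]) ^ m).natDegree ≤ m := by
  have h1 : (1 - X : ℝ[X]).natDegree ≤ 1 := by
    compute_degree
  exact (natDegree_pow_le_of_le m h1).trans (by simp)

theorem plus_natDegree (hD : TDet) (hL : TLead) (n : ℕ) (hn : 1 ≤ n) :
    (Aplus n).natDegree ≤ n - 1 ∧ 2 * (Aplus n).coeff (n - 1) = 1 + (-1) ^ (n - 1) ∧
      (Aplus n).eval 0 = 1 := by
  obtain ⟨h0, h1, h2⟩ := hL n hn
  have e := plus_two hD n hn
  have hE : Aplus n = C (1 / 2) * (E n + (1 - X) ^ (n - 1)) := by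
    rw [← e, ← mul_assoc]
    rw [show (C (1 / 2 : ℝ) : ℝ[X]) * 2 = 1 by
      rw [show (2 : ℝ[X]) = C 2 from rfl, ← C_mul]; norm_num]
    rw [one_mul]
  refine ⟨?_, ?_, ?_⟩
  · rw [hE]
    refine (natDegree_C_mul_le _ _).trans ((natDegree_add_le _ _).trans ?_)
    exact max_le h2.le (one_sub_natDegree _)
  · rw [hE, coeff_C_mul, coeff_add, h1, one_sub_coeff]; ring
  · have h3 := plus_eval hD n hn 0
    rw [← coeff_zero_eq_eval_zero, ← coeff_zero_eq_eval_zero, h0] at h3
    rw [← coeff_zero_eq_eval_zero]
    simp at h3
    linarith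

theorem tPlus (hD : TDet) (hR : TRoots) (hL : TLead) : TPlus := by
  intro n hn ⟨t, ht0, htm, hts⟩
  obtain ⟨hdeg, hlc, hzero⟩ := plus_natDegree hD hL n (by omega)
  -- signs at the points
  have hsign : ∀ j, j < n - 2 → 0 < (-1) ^ (j + 1) * (Aplus n).eval (t j) := by
    intro j hj
    have h1 := hts j hj
    have h2 := plus_eval hD n (by omega) (t j)
    have h3 : 0 < (1 - t j) ^ (n - 1) := pow_pos (by linarith [ht0 j hj]) _
    rcases neg_one_pow_eq_or ℝ (j + 1) with h | h <;> rw [h] at h1 ⊢ <;> linarith
  -- points `0, t 0, t 1, ...`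
  have hne : Aplus n ≠ 0 := by
    intro h; rw [h] at hzero; simp at hzero
  rcases Nat.even_or_odd n with he | ho
  · -- even
    have hc : (Aplus n).coeff (n - 1) = 0 := by
      have : Odd (n - 1) := by
        rcases he with ⟨k, rfl⟩
        exact ⟨k - 1, by omega⟩
      rw [this.neg_one_pow] at hlc
      linarith
    have hd : (Aplus n).natDegree ≤ n - 2 := by
      have := natDegree_le_pred hdeg hc
      omega
    refine hR (Aplus n) (n - 2) (fun j => if j = 0 then 0 else t (j - 1)) hd hne ?_ ?_
    · intro i j hij hj
      have hj0 : j ≠ 0 := by omega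
      simp only [hj0, if_false]
      by_cases hi : i = 0
      · simp only [hi, if_true]; exact ht0 _ (by omega)
      · simp only [hi, if_false]; exact htm _ _ (by omega) (by omega)
    · intro j hj
      by_cases hj0 : j = 0
      · subst hj0
        have h1 := hsign 0 (by omega)
        simp only [if_true, hzero]
        simp at h1 ⊢
        exact h1
      · have h1 := hsign (j - 1) (by omega)
        have h2 := hsign j hj
        simp only [hj0, if_false, Nat.add_sub_cancel, Nat.succ_ne_zero]
        rw [Nat.sub_add_cancel (by omega)] at h1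
        rw [pow_succ] at h2
        rcases neg_one_pow_eq_or ℝ j with h | h <;> rw [h] at h1 h2 <;> nlinarith
  · -- odd
    have hc : (Aplus n).coeff (n - 1) = 1 := by
      have : Even (n - 1) := by
        rcases ho with ⟨k, rfl⟩
        exact ⟨k, by omega⟩
      rw [this.neg_one_pow] at hlc
      linarith
    have hdn : (Aplus n).natDegree = n - 1 := by
      apply le_antisymm hdeg
      apply le_natDegree_of_ne_zero
      rw [hc]; exact one_ne_zero
    have hlead : (Aplus n).leadingCoeff = 1 := by
      rw [leadingCoeff, hdn, hc]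
    -- a point far to the left
    have hX : (-X : ℝ[X]).natDegree = 1 := by simp
    have ht : Tendsto (fun x => eval x ((Aplus n).comp (-X))) atTop atTop := by
      apply tendsto_atTop_of_leadingCoeff_nonneg
      · rw [← natDegree_pos_iff_degree_pos, natDegree_comp, hX, hdn]; omega
      · rw [leadingCoeff_comp (by rw [hX]; exact one_ne_zero), hlead, hdn]
        have : Even (n - 1) := by
          rcases ho with ⟨k, rfl⟩
          exact ⟨k, by omega⟩
        simp [this.neg_one_pow]
    obtain ⟨y, hy1, hy2⟩ : ∃ y : ℝ, y < t (n - 3) ∧ 0 < (Aplus n).eval y := by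
      have h1 := (ht.eventually_gt_atTop 0).and (eventually_gt_atTop (-t (n - 3)))
      obtain ⟨x, hx1, hx2⟩ := h1.exists
      refine ⟨-x, by linarith, ?_⟩
      simpa using hx1
    refine hR (Aplus n) (n - 1) (fun j => if j = 0 then 0 else if j = n - 1 then y else t (j - 1))
      hdeg hne ?_ ?_
    · intro i j hij hj
      have hj0 : j ≠ 0 := by omega
      simp only [hj0, if_false]
      by_cases hjn : j = n - 1
      · simp only [hjn, if_true]
        have hle : ∀ i, i ≤ n - 3 → t (n - 3) ≤ t i := by
          intro i hi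
          rcases Nat.lt_or_ge i (n - 3) with h | h
          · exact (htm _ _ h (by omega)).le
          · rw [le_antisymm hi h]
        by_cases hi : i = 0
        · simp only [hi, if_true]; exact hy1.trans (ht0 _ (by omega))
        · have : i ≠ n - 1 := by omega
          simp only [hi, this, if_false]
          exact lt_of_lt_of_le hy1 (hle _ (by omega))
      · simp only [hjn, if_false]
        have : i ≠ n - 1 := by omega
        by_cases hi : i = 0
        · simp only [hi, if_true]; exact ht0 _ (by omega)
        · simp only [hi, this, if_false]; exact htm _ _ (by omega) (by omega)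
    · intro j hj
      have hjn : j ≠ n - 1 := by omega
      by_cases hj0 : j = 0
      · subst hj0
        have h1 := hsign 0 (by omega)
        have h3 : (0 : ℕ) + 1 ≠ n - 1 := by omega
        simp only [if_true, hzero, h3, if_false, Nat.add_sub_cancel, Nat.succ_ne_zero]
        simp at h1 ⊢
        exact h1
      · have h1 := hsign (j - 1) (by omega)
        rw [Nat.sub_add_cancel (by omega)] at h1
        by_cases hj1 : j + 1 = n - 1
        · have hodd : Odd j := by
            rcases ho with ⟨k, rfl⟩
            exact ⟨k - 1, by omega⟩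
          simp only [hj0, hjn, hj1, if_true, if_false]
          have h4 : n - 1 ≠ 0 := by omega
          simp only [h4, if_false]
          rw [hodd.neg_one_pow] at h1
          nlinarith
        · have h2 := hsign j (by omega)
          simp only [hj0, hjn, hj1, if_false, Nat.add_sub_cancel, Nat.succ_ne_zero]
          rw [pow_succ] at h2
          rcases neg_one_pow_eq_or ℝ j with h | h <;> rw [h] at h1 h2 <;> nlinarith

end Q281ER
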