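import Pool.Agent.Q281.ER.Stmts

set_option autoImplicit false

namespace Q281ER

open Polynomial Finset

private lemma exc_succ {n : ℕ} (τ : Equiv.Perm (Fin (n + 1))) :
    exc τ = (if 0 < τ 0 then 1 else 0) + ∑ x : Fin n, if x.succ < τ x.succ then 1 else 0 := by
  unfold exc
  rw [Finset.card_filter, Fin.sum_univ_succ]

private lemma exc_eq {n : ℕ} (τ : Equiv.Perm (Fin n)) :
    exc τ = ∑ x : Fin n, if x < τ x then 1 else 0 := by
  unfold exc
  rw [Finset.card_filter]

private lemma exc_zero {n : ℕ} (e : Equiv.Perm (Fin n)) :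
    exc (Equiv.Perm.decomposeFin.symm (0, e)) = exc e := by
  rw [exc_succ, exc_eq]
  simp [Equiv.Perm.decomposeFin_symm_apply_succ]

private lemma exc_pos {n : ℕ} (e : Equiv.Perm (Fin n)) (x₀ : Fin n) :
    exc (Equiv.Perm.decomposeFin.symm ((e x₀).succ, e)) + (if x₀ < e x₀ then 1 else 0) =
      exc e + 1 := by
  rw [exc_succ, exc_eq]
  have h0 : Equiv.Perm.decomposeFin.symm ((e x₀).succ, e) 0 = (e x₀).succ := by simp
  rw [h0, if_pos (Fin.succ_pos _)]
  have h1 : ∀ x : Fin n, (if x.succ < Equiv.Perm.decomposeFin.symm ((e x₀).succ, e) x.succ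
      then 1 else 0) = if x = x₀ then 0 else (if x < e x then 1 else 0) := by
    intro x
    rw [Equiv.Perm.decomposeFin_symm_apply_succ]
    by_cases hx : x = x₀
    · subst hx
      simp
    · have hne : (e x).succ ≠ (e x₀).succ := by
        intro h
        exact hx (e.injective (Fin.succ_injective _ h))
      rw [Equiv.swap_apply_of_ne_of_ne (Fin.succ_ne_zero _) hne, if_neg hx]
      simp
  rw [Finset.sum_congr rfl (fun x _ => h1 x)]
  rw [← Finset.add_sum_erase univ (fun x => if x < e x then 1 else 0) (mem_univ x₀)]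
  rw [← Finset.add_sum_erase univ (fun x => if x = x₀ then 0 else (if x < e x then 1 else 0))
    (mem_univ x₀)]
  have h2 : ∑ x ∈ univ.erase x₀, (if x = x₀ then 0 else (if x < e x then 1 else 0)) =
      ∑ x ∈ univ.erase x₀, (if x < e x then 1 else 0) := by
    apply Finset.sum_congr rfl
    intro x hx
    rw [if_neg (Finset.ne_of_mem_erase hx)]
  rw [h2]
  simp only [if_true]
  ring

private lemma inner {n : ℕ} (e : Equiv.Perm (Fin n)) :
    ∑ p : Fin (n + 1), (X : ℝ[X]) ^ exc (Equiv.Perm.decomposeFin.symm (p, e)) =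
      (1 + (n : ℝ[X]) * X) * X ^ exc e + X * (1 - X) * derivative (X ^ exc e) := by
  rw [Fin.sum_univ_succ, exc_zero]
  rw [← Equiv.sum_comp e (fun q : Fin n => (X : ℝ[X]) ^
    exc (Equiv.Perm.decomposeFin.symm (q.succ, e)))]
  have h1 : ∀ x : Fin n, (X : ℝ[X]) ^ exc (Equiv.Perm.decomposeFin.symm ((e x).succ, e)) =
      if x < e x then X ^ exc e else X ^ (exc e + 1) := by
    intro x
    have := exc_pos e x
    by_cases hx : x < e x
    · rw [if_pos hx] at this ⊢
      have h3 : exc (Equiv.Perm.decomposeFin.symm ((e x).succ, e)) = exc e := by omega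
      rw [h3]
    · rw [if_neg hx] at this ⊢
      rw [add_zero] at this
      rw [this]
  rw [Finset.sum_congr rfl (fun x _ => h1 x), Finset.sum_ite, Finset.sum_const, Finset.sum_const]
  have hc : (univ.filter (fun x : Fin n => x < e x)).card = exc e := rfl
  have hc2 : (univ.filter (fun x : Fin n => x < e x)).card +
      (univ.filter (fun x : Fin n => ¬ x < e x)).card = n := by
    rw [Finset.card_filter_add_card_filter_not]
    simp
  rw [hc] at hc2
  have hc3 : (((univ.filter (fun x : Fin n => ¬ x < e x)).card : ℕ) : ℝ[X]) =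
      (n : ℝ[X]) - (exc e : ℝ[X]) := by
    rw [eq_sub_iff_add_eq]
    exact_mod_cast (by omega : (univ.filter (fun x : Fin n => ¬ x < e x)).card + exc e = n)
  rw [hc, nsmul_eq_mul, nsmul_eq_mul, hc3, derivative_X_pow]
  rcases Nat.eq_zero_or_pos (exc e) with h0 | h0
  · rw [h0]; simp
  · obtain ⟨k, hk⟩ := Nat.exists_eq_succ_of_ne_zero (Nat.pos_iff_ne_zero.1 h0)
    rw [hk]
    simp only [Nat.succ_eq_add_one, Nat.add_sub_cancel, map_natCast]
    ring

theorem tRec : TRec := by
  intro n
  unfold E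
  rw [← Equiv.sum_comp (Equiv.Perm.decomposeFin (n := n)).symm, Fintype.sum_prod_type_right,
    derivative_sum, Finset.mul_sum, Finset.mul_sum, ← Finset.sum_add_distrib]
  exact Finset.sum_congr rfl (fun e _ => inner e)

end Q281ER
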