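import Pool.Agent.Q281.ER.Stmts

set_option autoImplicit false

namespace Q281ER

open Polynomial Filter Topology

theorem tRoots : TRoots := by
  intro p N x hdeg hp hx hs z hz
  have hex : ∀ j : ℕ, ∃ r : ℝ, j < N → x (j + 1) < r ∧ r < x j ∧ p.eval r = 0 := by
    intro j
    by_cases hj : j < N
    · have hlt : x (j + 1) < x j := hx j (j + 1) (Nat.lt_succ_self j) hj
      have hsj := hs j hj
      have hcont : ContinuousOn (fun t => p.eval t) (Set.Icc (x (j + 1)) (x j)) :=
        p.continuous.continuousOn
      rcases lt_or_ge (p.eval (x (j + 1))) 0 with h | h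
      · have h2 : 0 < p.eval (x j) := by
          by_contra hcon
          push Not at hcon
          exact absurd hsj (not_lt.mpr (mul_nonneg_of_nonpos_of_nonpos hcon h.le))
        obtain ⟨r, hr, hr0⟩ := intermediate_value_Ioo hlt.le hcont (show (0 : ℝ) ∈ Set.Ioo _ _ from ⟨h, h2⟩)
        exact ⟨r, fun _ => ⟨hr.1, hr.2, hr0⟩⟩
      · have h1 : 0 < p.eval (x (j + 1)) := by
          rcases h.lt_or_eq with h' | h'
          · exact h'
          · rw [← h', mul_zero] at hsj
            exact absurd hsj (lt_irrefl _)
        have h2 : p.eval (x j) < 0 := by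
          by_contra hcon
          push Not at hcon
          exact absurd hsj (not_lt.mpr (mul_nonneg hcon h1.le))
        obtain ⟨r, hr, hr0⟩ := intermediate_value_Ioo' hlt.le hcont (show (0 : ℝ) ∈ Set.Ioo _ _ from ⟨h2, h1⟩)
        exact ⟨r, fun _ => ⟨hr.1, hr.2, hr0⟩⟩
    · exact ⟨0, fun h => absurd h hj⟩
  choose r hr using hex
  have hinj : ∀ i j : ℕ, i < j → j < N → r j < r i := by
    intro i j hij hj
    have h1 := (hr j hj).2.1
    have h2 := (hr i (hij.trans hj)).1
    have h3 : x j ≤ x (i + 1) := by
      rcases (Nat.succ_le_of_lt hij).lt_or_eq with h | h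
      · exact (hx (i + 1) j h hj.le).le
      · have : i + 1 = j := h
        rw [this]
    linarith
  have hinj' : Set.InjOn r (Finset.range N : Set ℕ) := by
    intro a ha b hb hab
    have ha' : a < N := by simpa using ha
    have hb' : b < N := by simpa using hb
    rcases lt_trichotomy a b with h | h | h
    · exact absurd hab (ne_of_gt (hinj a b h hb'))
    · exact h
    · exact absurd hab (ne_of_lt (hinj b a h ha'))
  have hsub : (Finset.range N).image r ⊆ p.roots.toFinset := by
    intro y hy
    obtain ⟨j, hj, rfl⟩ := Finset.mem_image.mp hy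
    rw [Multiset.mem_toFinset, Polynomial.mem_roots hp]
    exact (hr j (Finset.mem_range.mp hj)).2.2
  have hc1 : N ≤ p.roots.toFinset.card := by
    have := Finset.card_le_card hsub
    rwa [Finset.card_image_of_injOn hinj', Finset.card_range] at this
  have hc2 : p.roots.toFinset.card ≤ p.roots.card := Multiset.toFinset_card_le _
  have hc3 : p.roots.card ≤ p.natDegree := p.card_roots'
  have hcard : p.roots.card = p.natDegree := by omega
  have hprod := Polynomial.C_leadingCoeff_mul_prod_multiset_X_sub_C hcard
  rw [← hprod] at hz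
  rw [map_mul, map_multiset_prod, Multiset.map_map, aeval_C] at hz
  rcases mul_eq_zero.mp hz with h | h
  · exact absurd h (by simpa using hp)
  · rw [Multiset.prod_eq_zero_iff, Multiset.mem_map] at h
    obtain ⟨a, _, ha⟩ := h
    simp only [Function.comp_apply, map_sub, aeval_X, aeval_C] at ha
    have : z = (a : ℂ) := by
      have := sub_eq_zero.mp ha
      simpa using this
    rw [this]; simp

end Q281ER
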