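import Pool.Agent.Q281.ER.Stmts

/-! MP_b94b02_co, lemma Series (helper204): the power series of `S n` in `e^u`. -/

set_option autoImplicit false

namespace Q281ER

open Polynomial Filter Topology

private noncomputable def ser (n k : ℕ) (u : ℝ) : ℝ :=
  (-1 : ℝ) ^ (k + 1) * ((k : ℝ) + 1) ^ n * Real.exp (((k : ℝ) + 1) * u)

private theorem exp_mul_eq (k : ℕ) (u : ℝ) :
    Real.exp (((k : ℝ) + 1) * u) = Real.exp u ^ (k + 1) := by
  rw [← Real.exp_nat_mul]
  push_cast
  rfl

private theorem norm_ser (n k : ℕ) (u : ℝ) :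
    ‖ser n k u‖ = ((k : ℝ) + 1) ^ n * Real.exp u ^ (k + 1) := by
  unfold ser
  rw [exp_mul_eq, norm_mul, norm_mul, norm_pow, norm_neg, norm_one, one_pow, one_mul,
    Real.norm_eq_abs, Real.norm_eq_abs, abs_of_nonneg (by positivity), abs_of_nonneg (by positivity)]

private theorem summable_bd (n : ℕ) {u : ℝ} (hu : u < 0) :
    Summable (fun k : ℕ => ((k : ℝ) + 1) ^ n * Real.exp u ^ (k + 1)) := by
  have hx : ‖Real.exp u‖ < 1 := by
    rw [Real.norm_eq_abs, abs_of_pos (Real.exp_pos u)]
    exact Real.exp_lt_one_iff.mpr hu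
  have h := summable_pow_mul_geometric_of_norm_lt_one (R := ℝ) n hx
  have h2 := (summable_nat_add_iff 1).mpr h
  refine h2.congr fun k => ?_
  push_cast
  rfl

private theorem summable_ser (n : ℕ) {u : ℝ} (hu : u < 0) : Summable (fun k => ser n k u) := by
  apply Summable.of_norm
  refine (summable_bd n hu).congr fun k => ?_
  rw [norm_ser]

private theorem hasDeriv_ser (n k : ℕ) (u : ℝ) : HasDerivAt (ser n k) (ser (n + 1) k u) u := by
  have h : HasDerivAt (fun u : ℝ => Real.exp (((k : ℝ) + 1) * u))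
      (Real.exp (((k : ℝ) + 1) * u) * ((k : ℝ) + 1)) u := by
    have h1 : HasDerivAt (fun u : ℝ => ((k : ℝ) + 1) * u) ((k : ℝ) + 1) u := by
      simpa using (hasDerivAt_id u).const_mul ((k : ℝ) + 1)
    exact h1.exp
  have h2 := h.const_mul ((-1 : ℝ) ^ (k + 1) * ((k : ℝ) + 1) ^ n)
  refine HasDerivAt.congr_deriv (f := ser n k) h2 ?_
  unfold ser
  ring

private theorem base {u : ℝ} (hu : u < 0) : HasSum (fun k => ser 0 k u) (S 0 u) := by
  have hx : ‖-Real.exp u‖ < 1 := by
    rw [norm_neg, Real.norm_eq_abs, abs_of_pos (Real.exp_pos u)]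
    exact Real.exp_lt_one_iff.mpr hu
  have h := (hasSum_geometric_of_norm_lt_one hx).mul_left (-Real.exp u)
  have e1 : (fun k : ℕ => -Real.exp u * (-Real.exp u) ^ k) = fun k => ser 0 k u := by
    funext k
    unfold ser
    rw [exp_mul_eq, ← pow_succ']
    rw [neg_pow]
    ring
  have hE : (E 0) = 1 := by
    unfold E
    simp [exc]
  have e2 : -Real.exp u * (1 - -Real.exp u)⁻¹ = S 0 u := by
    unfold S
    rw [hE]
    simp
    rw [div_eq_mul_inv]
    ring
  rw [e1, e2] at h
  exact h

private theorem series_all (hD : TDeriv) (n : ℕ) :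
    ∀ u : ℝ, u < 0 → HasSum (fun k => ser n k u) (S n u) := by
  induction n with
  | zero => intro u hu; exact base hu
  | succ n ih =>
    intro u hu
    have hs := summable_ser (n + 1) hu
    have hder : HasDerivAt (fun z => ∑' k, ser n k z) (∑' k, ser (n + 1) k u) u := by
      refine hasDerivAt_tsum_of_isPreconnected (t := Set.Iio (u / 2)) (y₀ := u)
        (summable_bd (n + 1) (show u / 2 < 0 by linarith)) isOpen_Iio
        isPreconnected_Iio (fun k y _ => hasDeriv_ser n k y) (fun k y hy => ?_)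
        (show u < u / 2 by linarith) (summable_ser n hu) (show u < u / 2 by linarith)
      rw [norm_ser]
      have h1 : Real.exp y ≤ Real.exp (u / 2) := Real.exp_le_exp.mpr (le_of_lt hy)
      exact mul_le_mul_of_nonneg_left (pow_le_pow_left₀ (Real.exp_pos y).le h1 _) (by positivity)
    have heq : (fun z => ∑' k, ser n k z) =ᶠ[𝓝 u] S n := by
      filter_upwards [isOpen_Iio.mem_nhds hu] with z hz
      exact (ih z hz).tsum_eq
    have h2 : HasDerivAt (S n) (∑' k, ser (n + 1) k u) u := hder.congr_of_eventuallyEq heq.symm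
    have h3 := h2.unique (hD n u)
    rw [← h3]
    exact hs.hasSum

theorem tSeries (hD : TDeriv) : TSeries := by
  intro n _ u hu
  exact series_all hD n u hu

end Q281ER
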