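import Pool.Agent.Q281.ER.Stmts

set_option autoImplicit false

namespace Q281ER

open Polynomial Filter Topology

/-- the points -/
private noncomputable def p6 : ℕ → ℝ := fun j =>
  if j = 0 then -(1 / 11) else if j = 1 then -(1 / 2) else if j = 2 then -(2) else -(11)

theorem tSmall6 (hE : TExplicit) : TSmall6 := by
  have hE' := hE.2.1
  refine ⟨p6, ?_, ?_, ?_⟩
  · intro j hj
    norm_num at hj
    interval_cases j <;> norm_num [p6]
  · intro i j hij hj
    norm_num at hj
    interval_cases j <;> interval_cases i <;> norm_num [p6]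
  · intro j hj
    norm_num at hj
    rw [hE']
    simp only [eval_add, eval_mul, eval_pow, eval_X, eval_one, eval_ofNat]
    interval_cases j <;> norm_num [p6]

/-- the points -/
private noncomputable def p7 : ℕ → ℝ := fun j =>
  if j = 0 then -(1 / 19) else if j = 1 then -(2 / 7) else if j = 2 then -(1) else if j = 3 then -(7 / 2) else -(19)

theorem tSmall7 (hE : TExplicit) : TSmall7 := by
  have hE' := hE.2.2.1
  refine ⟨p7, ?_, ?_, ?_⟩
  · intro j hj
    norm_num at hj
    interval_cases j <;> norm_num [p7]
  · intro i j hij hj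
    norm_num at hj
    interval_cases j <;> interval_cases i <;> norm_num [p7]
  · intro j hj
    norm_num at hj
    rw [hE']
    simp only [eval_add, eval_mul, eval_pow, eval_X, eval_one, eval_ofNat]
    interval_cases j <;> norm_num [p7]

/-- the points -/
private noncomputable def p8 : ℕ → ℝ := fun j =>
  if j = 0 then -(1 / 32) else if j = 1 then -(1 / 6) else if j = 2 then -(3 / 5) else if j = 3 then -(5 / 3) else if j = 4 then -(6) else -(32)

theorem tSmall8 (hE : TExplicit) : TSmall8 := by
  have hE' := hE.2.2.2.1
  refine ⟨p8, ?_, ?_, ?_⟩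
  · intro j hj
    norm_num at hj
    interval_cases j <;> norm_num [p8]
  · intro i j hij hj
    norm_num at hj
    interval_cases j <;> interval_cases i <;> norm_num [p8]
  · intro j hj
    norm_num at hj
    rw [hE']
    simp only [eval_add, eval_mul, eval_pow, eval_X, eval_one, eval_ofNat]
    interval_cases j <;> norm_num [p8]

theorem tSmall6_7_8 (hE : TExplicit) : TSmall6 ∧ TSmall7 ∧ TSmall8 :=
  ⟨tSmall6 hE, tSmall7 hE, tSmall8 hE⟩

end Q281ER
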