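import Pool.Agent.Q281.ER.Stmts

set_option autoImplicit false

namespace Q281ER

open Polynomial Filter Topology

/-- the points -/
private noncomputable def p9 : ℕ → ℝ := fun j =>
  if j = 0 then -(1 / 47) else if j = 1 then -(1 / 8) else if j = 2 then -(2 / 5) else if j = 3 then -(1) else if j = 4 then -(5 / 2) else if j = 5 then -(8) else -(50)

/-- the points -/
private noncomputable def p10 : ℕ → ℝ := fun j =>
  if j = 0 then -(1 / 76) else if j = 1 then -(1 / 12) else if j = 2 then -(1 / 4) else if j = 3 then -(2 / 3) else if j = 4 then -(3 / 2) else if j = 5 then -(4) else if j = 6 then -(12) else -(82)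

/-- the points -/
private noncomputable def p11 : ℕ → ℝ := fun j =>
  if j = 0 then -(1 / 122) else if j = 1 then -(1 / 17) else if j = 2 then -(1 / 6) else if j = 3 then -(3 / 7) else if j = 4 then -(1) else if j = 5 then -(7 / 3) else if j = 6 then -(6) else if j = 7 then -(17) else -(132)

theorem tSmall9 (hE : TExplicit) : TSmall9 := by
  have hE' := hE.2.2.2.2.1
  refine ⟨p9, ?_, ?_, ?_⟩
  · intro j hj
    norm_num at hj
    interval_cases j <;> norm_num [p9]
  · intro i j hij hj
    norm_num at hj
    interval_cases j <;> interval_cases i <;> norm_num [p9]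
  · intro j hj
    norm_num at hj
    rw [hE']
    simp only [eval_add, eval_mul, eval_pow, eval_X, eval_one, eval_ofNat]
    interval_cases j <;> norm_num [p9]

theorem tSmall10 (hE : TExplicit) : TSmall10 := by
  have hE' := hE.2.2.2.2.2.1
  refine ⟨p10, ?_, ?_, ?_⟩
  · intro j hj
    norm_num at hj
    interval_cases j <;> norm_num [p10]
  · intro i j hij hj
    norm_num at hj
    interval_cases j <;> interval_cases i <;> norm_num [p10]
  · intro j hj
    norm_num at hj
    rw [hE']
    simp only [eval_add, eval_mul, eval_pow, eval_X, eval_one, eval_ofNat]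
    interval_cases j <;> norm_num [p10]

theorem tSmall11 (hE : TExplicit) : TSmall11 := by
  have hE' := hE.1
  refine ⟨p11, ?_, ?_, ?_⟩
  · intro j hj
    norm_num at hj
    interval_cases j <;> norm_num [p11]
  · intro i j hij hj
    norm_num at hj
    interval_cases j <;> interval_cases i <;> norm_num [p11]
  · intro j hj
    norm_num at hj
    rw [hE']
    simp only [eval_add, eval_mul, eval_pow, eval_X, eval_one, eval_ofNat]
    interval_cases j <;> norm_num [p11]

theorem tSmall9_10_11 (hE : TExplicit) : TSmall9 ∧ TSmall10 ∧ TSmall11 :=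
  ⟨tSmall9 hE, tSmall10 hE, tSmall11 hE⟩

end Q281ER
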