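import Pool.Agent.Q281.ER.Stmts

set_option autoImplicit false

namespace Q281ER

open Filter Topology

theorem F_deriv (n : ℕ) (u : ℝ) : HasDerivAt (F n) (F (n + 1) u) u := by
  have h1 : HasDerivAt (fun u : ℝ => 3 / 2 * u) (3 / 2) u := by
    simpa using (hasDerivAt_id u).const_mul (3 / 2 : ℝ)
  have h2 := (h1.exp).const_mul (64 * (3 / 2 : ℝ) ^ n / (3 / 2) ^ 12)
  have h3 : F (n + 1) u = 64 * (3 / 2 : ℝ) ^ n / (3 / 2) ^ 12 * (Real.exp (3 / 2 * u) * (3 / 2)) := by
    unfold F
    rw [pow_succ]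
    ring
  rw [h3]
  exact h2

theorem F_pos (n : ℕ) (u : ℝ) : 0 < F n u := by
  unfold F
  positivity

theorem F_tend (n : ℕ) : Tendsto (F n) atBot (𝓝 0) := by
  have h1 : Tendsto (fun u : ℝ => 3 / 2 * u) atBot atBot :=
    Tendsto.const_mul_atBot (by norm_num) tendsto_id
  have h2 := (Real.tendsto_exp_atBot.comp h1).const_mul (64 * (3 / 2 : ℝ) ^ n / (3 / 2) ^ 12)
  rw [mul_zero] at h2
  exact h2

theorem g_deriv (hD : TDeriv) (n : ℕ) (ε : ℝ) (u : ℝ) :
    HasDerivAt (fun x => ε * S n x - F n x) (ε * S (n + 1) u - F (n + 1) u) u :=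
  ((hD n u).const_mul ε).sub (F_deriv n u)

theorem mvt (hD : TDeriv) (n : ℕ) (ε : ℝ) {a b : ℝ} (hab : a < b)
    (h : ε * S n a - F n a < ε * S n b - F n b) :
    ∃ ξ, a < ξ ∧ ξ < b ∧ F (n + 1) ξ < ε * S (n + 1) ξ := by
  obtain ⟨ξ, hξ, h1⟩ := exists_hasDerivAt_eq_slope (fun x => ε * S n x - F n x)
    (fun x => ε * S (n + 1) x - F (n + 1) x) hab
    (fun x _ => (g_deriv hD n ε x).continuousAt.continuousWithinAt)
    (fun x _ => g_deriv hD n ε x)
  refine ⟨ξ, hξ.1, hξ.2, ?_⟩
  have h2 : 0 < ε * S (n + 1) ξ - F (n + 1) ξ := by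
    rw [h1]
    exact div_pos (by linarith) (by linarith)
  linarith

theorem step_aux (hD : TDeriv) (hT : TTend) (n M : ℕ) (w : ℕ → ℝ) (hw0 : ∀ j, j < M → w j ≤ 0)
    (hinc : ∀ i j, i < j → j < M → w i < w j)
    (hal : ∀ j, j < M → F n (w j) < (-1) ^ j * S n (w j)) :
    ∃ u : ℕ → ℝ, (∀ j, j < M → u j < 0) ∧ (∀ i j, i < j → j < M → u i < u j) ∧
      ∀ j, j < M → F (n + 1) (u j) < (-1) ^ j * S (n + 1) (u j) := by
  have key : ∀ j, j < M → ∃ ξ, ξ < w j ∧ (∀ i, i + 1 = j → w i < ξ) ∧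
      F (n + 1) ξ < (-1) ^ j * S (n + 1) ξ := by
    intro j hj
    rcases j with _ | j
    · have h0 := hal 0 hj
      rw [pow_zero, one_mul] at h0
      have ht : Tendsto (fun x => (1 : ℝ) * S n x - F n x) atBot (𝓝 0) := by
        have := ((hT n).const_mul (1 : ℝ)).sub (F_tend n)
        simpa using this
      have hpos : (0 : ℝ) < 1 * S n (w 0) - F n (w 0) := by linarith
      obtain ⟨a, ha1, ha2⟩ := ((ht.eventually (gt_mem_nhds hpos)).and (eventually_lt_atBot (w 0))).exists
      obtain ⟨ξ, _, h2, h3⟩ := mvt hD n 1 ha2 ha1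
      refine ⟨ξ, h2, fun i hi => by omega, ?_⟩
      simpa using h3
    · have h0 := hal j (by omega)
      have h1 := hal (j + 1) hj
      have hlt := hinc j (j + 1) (by omega) hj
      have hFp := F_pos n (w j)
      have : (-1 : ℝ) ^ (j + 1) * S n (w j) = -((-1) ^ j * S n (w j)) := by
        rw [pow_succ]; ring
      obtain ⟨ξ, h2, h3, h4⟩ := mvt hD n ((-1) ^ (j + 1)) hlt (by rw [this]; linarith)
      refine ⟨ξ, h3, fun i hi => ?_, h4⟩
      have : i = j := by omega
      rw [this]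
      exact h2
  choose! u hu1 hu2 hu3 using key
  refine ⟨u, fun j hj => lt_of_lt_of_le (hu1 j hj) (hw0 j hj), fun i j hij hj => ?_, hu3⟩
  have h1 := hu1 i (by omega)
  have h2 := hu2 j hj (j - 1) (by omega)
  rcases Nat.lt_or_ge i (j - 1) with h | h
  · have h3 := hinc i (j - 1) h (by omega)
    linarith
  · have : i = j - 1 := by omega
    rw [this] at h1 ⊢
    linarith

theorem tStep (hD : TDeriv) (hT : TTend) (hC : TCenter) : TStep := by
  intro n hn hH
  obtain ⟨u, hu1, hu2, hu3⟩ := hH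
  rcases Nat.even_or_odd n with he | ho
  · have hM : (n + 1 - 2) / 2 = (n - 2) / 2 := by
      obtain ⟨k, hk⟩ := he
      omega
    unfold H
    rw [hM]
    exact step_aux hD hT n ((n - 2) / 2) u (fun j hj => (hu1 j hj).le) hu2 hu3
  · obtain ⟨k, hk⟩ := ho
    have hM : (n + 1 - 2) / 2 = (n - 2) / 2 + 1 := by omega
    unfold H
    rw [hM]
    set m := (n - 2) / 2 with hm
    have hc := hC n (by omega) (by omega)
    have hsgn : (-1 : ℝ) ^ ((n + 1) / 2) = (-1) ^ m := by
      have : (n + 1) / 2 = m + 2 := by omega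
      rw [this, pow_add]
      norm_num
    rw [hsgn] at hc
    refine step_aux hD hT n (m + 1) (fun j => if j < m then u j else 0) ?_ ?_ ?_
    · intro j hj
      show (if j < m then u j else 0) ≤ 0
      split_ifs with h
      · exact (hu1 j h).le
      · exact le_rfl
    · intro i j hij hj
      show (if i < m then u i else 0) < (if j < m then u j else 0)
      rw [if_pos (by omega : i < m)]
      split_ifs with h
      · exact hu2 i j hij h
      · exact hu1 i (by omega)
    · intro j hj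
      show F n (if j < m then u j else 0) < (-1) ^ j * S n (if j < m then u j else 0)
      split_ifs with h
      · exact hu3 j h
      · have : j = m := by omega
        rw [this]
        exact hc

end Q281ER
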