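import Pool.Agent.Q281.ER.Stmts

/-!
Task Sym of the blueprint for MP_b94b02_co: the symmetric system of points.
-/

set_option autoImplicit false

namespace Q281ER

private lemma F_pos (n : ℕ) (u : ℝ) : 0 < F n u := by unfold F; positivity

private lemma even_aux (u : ℝ) :
    Real.exp (-u) / (1 + Real.exp (-u)) ^ 2 = Real.exp u / (1 + Real.exp u) ^ 2 := by
  rw [Real.exp_neg]
  have h : Real.exp u ≠ 0 := (Real.exp_pos u).ne'
  have h2 : 1 + Real.exp u ≠ 0 := by positivity
  have h3 : 1 + (Real.exp u)⁻¹ ≠ 0 := by positivity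
  have e : 1 + (Real.exp u)⁻¹ = (1 + Real.exp u) / Real.exp u := by field_simp; ring
  rw [e]
  field_simp

private lemma pow_congr {a b : ℕ} (h : a % 2 = b % 2) : (-1 : ℝ) ^ a = (-1) ^ b := by
  rw [neg_one_pow_eq_pow_mod_two, h, ← neg_one_pow_eq_pow_mod_two]

private lemma center_val (n : ℕ) (hn : 12 ≤ n) : 1 / 4 < F n 0 := by
  unfold F
  rw [mul_zero, Real.exp_zero, mul_one]
  have h1 : ((3 : ℝ) / 2) ^ 12 ≤ (3 / 2) ^ n := pow_le_pow_right₀ (by norm_num) hn
  have h2 : (0 : ℝ) < (3 / 2) ^ 12 := by positivity
  rw [lt_div_iff₀ h2]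
  nlinarith

theorem tSym (hN : TNeg) (hD : TDom) (hP : TParity) (hC : TCenter) : TSym := by
  intro n hn ⟨u, hu0, hum, hu⟩
  obtain ⟨m, hm⟩ : ∃ m, m = (n - 2) / 2 := ⟨_, rfl⟩
  rw [← hm] at hu0 hum hu
  have hm5 : 5 ≤ m := by omega
  -- all points are to the right of `- n log 2`
  have hlow : ∀ j, j < m → -(n * Real.log 2) ≤ u j := by
    have h0 : -(n * Real.log 2) < u 0 := by
      by_contra hcon
      have h1 := hN n (by omega) (u 0) (not_lt.1 hcon)
      have h2 := hu 0 (by omega)
      rw [pow_zero, one_mul] at h2
      have h3 := F_pos n (u 0)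
      linarith
    intro j hj
    rcases Nat.eq_zero_or_pos j with h | h
    · rw [h]; exact h0.le
    · exact (h0.trans (hum 0 j h hj)).le
  have hpt : ∀ j, j < m → Real.exp (u j) / (1 + Real.exp (u j)) ^ 2 < (-1) ^ j * S n (u j) :=
    fun j hj => (hD n hn (u j) (hlow j hj)).trans (hu j hj)
  refine ⟨fun j => if j < m then u j else if n - 3 - j < m then -u (n - 3 - j) else 0, ?_, ?_⟩
  · intro i j hij hj
    show (if i < m then u i else if n - 3 - i < m then -u (n - 3 - i) else 0) <
      (if j < m then u j else if n - 3 - j < m then -u (n - 3 - j) else 0)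
    by_cases hi : i < m
    · rw [if_pos hi]
      by_cases hj' : j < m
      · rw [if_pos hj']; exact hum i j hij hj'
      · rw [if_neg hj']
        by_cases hk : n - 3 - j < m
        · rw [if_pos hk]
          have h1 := hu0 i hi
          have h2 := hu0 _ hk
          linarith
        · rw [if_neg hk]; exact hu0 i hi
    · have hj' : ¬ j < m := by omega
      rw [if_neg hi, if_neg hj']
      have hk : n - 3 - j < m := by omega
      rw [if_pos hk]
      by_cases hki : n - 3 - i < m
      · rw [if_pos hki]
        have h1 := hum (n - 3 - j) (n - 3 - i) (by omega) hki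
        linarith
      · rw [if_neg hki]
        have h2 := hu0 _ hk
        linarith
  · intro j hj
    show Real.exp (if j < m then u j else if n - 3 - j < m then -u (n - 3 - j) else 0) /
      (1 + Real.exp (if j < m then u j else if n - 3 - j < m then -u (n - 3 - j) else 0)) ^ 2 <
        (-1) ^ j * S n (if j < m then u j else if n - 3 - j < m then -u (n - 3 - j) else 0)
    by_cases hj' : j < m
    · rw [if_pos hj']; exact hpt j hj'
    · rw [if_neg hj']
      by_cases hk : n - 3 - j < m
      · rw [if_pos hk, even_aux, hP n (by omega)]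
        have h1 := hpt _ hk
        have e : (-1 : ℝ) ^ j * ((-1) ^ (n + 1) * S n (u (n - 3 - j))) =
            (-1) ^ (n - 3 - j) * S n (u (n - 3 - j)) := by
          rw [← mul_assoc, ← pow_add, pow_congr (a := j + (n + 1)) (b := n - 3 - j) (by omega)]
        rw [e]
        exact h1
      · rw [if_neg hk]
        have hodd : n % 2 = 1 := by omega
        have hjm : j = m := by omega
        have h1 := hC n (by omega) hodd
        rw [pow_congr (a := (n + 1) / 2) (b := j) (by omega)] at h1
        have h2 := center_val n hn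
        rw [Real.exp_zero]
        norm_num
        norm_num at h2
        linarith

end Q281ER
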