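import Pool.Agent.Q281.ER.Stmts

set_option autoImplicit false

namespace Q281ER

open Polynomial Filter Topology

theorem tTend : TTend := by
  intro n
  have hc : ContinuousAt (fun x : ℝ => -x * (E n).eval (-x) / (1 + x) ^ (n + 1)) 0 := by
    refine ContinuousAt.div ?_ ?_ ?_
    · exact (continuous_neg.mul ((E n).continuous.comp continuous_neg)).continuousAt
    · exact ((continuous_const.add continuous_id).pow (n + 1)).continuousAt
    · simp
  have h0 : Tendsto (fun x : ℝ => -x * (E n).eval (-x) / (1 + x) ^ (n + 1)) (𝓝 0) (𝓝 0) := by
    have := hc.tendsto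
    simpa using this
  have h := h0.comp Real.tendsto_exp_atBot
  exact h

end Q281ER
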