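import Pool.Agent.Q281.ER.Stmts

set_option autoImplicit false

namespace Q281ER

theorem trans_aux (n j : ℕ) (hn : 3 ≤ n) (e A : ℝ) (he : 0 < e)
    (h0 : e / (1 + e) ^ 2 < (-1) ^ j * (-e * A / (1 + e) ^ (n + 1))) :
    (1 + e) ^ (n - 1) < (-1) ^ (j + 1) * A := by
  have h1 : (1 + e) ^ (n + 1) = (1 + e) ^ (n - 1) * (1 + e) ^ 2 := by
    rw [← pow_add]; congr 1; omega
  have h2 : 0 < (1 + e) ^ (n - 1) := by positivity
  have h3 : 0 < (1 + e) ^ 2 := by positivity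
  have h4 : (-1 : ℝ) ^ j * (-e * A / (1 + e) ^ (n + 1)) =
      (e / (1 + e) ^ 2) * (((-1) ^ (j + 1) * A) / (1 + e) ^ (n - 1)) := by
    rw [h1, pow_succ (-1 : ℝ) j]; field_simp
  rw [h4] at h0
  have h5 : 0 < e / (1 + e) ^ 2 := by positivity
  have h6 : 1 < ((-1) ^ (j + 1) * A) / (1 + e) ^ (n - 1) := by
    by_contra h7
    push Not at h7
    nlinarith [mul_le_mul_of_nonneg_left h7 h5.le]
  rwa [lt_div_iff₀ h2, one_mul] at h6

theorem tTrans : TTrans := by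
  rintro n hn ⟨v, hv, h⟩
  refine ⟨fun j => -Real.exp (v j), fun j _ => neg_neg_of_pos (Real.exp_pos _),
    fun i j hij hj => neg_lt_neg (Real.exp_lt_exp.2 (hv i j hij hj)), fun j hj => ?_⟩
  have h0 := h j hj
  unfold S at h0
  have := trans_aux n j hn _ _ (Real.exp_pos _) h0
  simpa only [sub_neg_eq_add] using this

end Q281ER
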