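import Pool.Agent.Q281.ER.LBase
import Pool.Agent.Q281.ER.LCenter
import Pool.Agent.Q281.ER.LConv
import Pool.Agent.Q281.ER.LDeriv
import Pool.Agent.Q281.ER.LDet
import Pool.Agent.Q281.ER.LDom
import Pool.Agent.Q281.ER.LExplicit
import Pool.Agent.Q281.ER.LLead
import Pool.Agent.Q281.ER.LMinus
import Pool.Agent.Q281.ER.LNeg
import Pool.Agent.Q281.ER.LParity
import Pool.Agent.Q281.ER.LPlus
import Pool.Agent.Q281.ER.LRec
import Pool.Agent.Q281.ER.LRoots
import Pool.Agent.Q281.ER.LSeries
import Pool.Agent.Q281.ER.LSmall6_7_8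
import Pool.Agent.Q281.ER.LSmall9_10_11
import Pool.Agent.Q281.ER.LStep
import Pool.Agent.Q281.ER.LSym
import Pool.Agent.Q281.ER.LTend
import Pool.Agent.Q281.ER.LTrans

set_option autoImplicit false

namespace Q281ER

theorem main (n : ℕ) (hn : 6 ≤ n) : RealRooted (Aplus n) ∧ RealRooted (Aminus n) := by
  have hR := tRec
  have hX := tExplicit hR
  have hL := tLead hR
  have hD := tDeriv hR
  have hP := tParity hD
  have hS := tSeries hD
  have hN := tNeg hS
  have hCv := tConv hD
  have hC := tCenter hCv hP hX hD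
  have hT := tTend
  have hSt := tStep hD hT hC
  have hDo := tDom
  have hB := tBase hX
  have hSy := tSym hN hDo hP hC
  have hRo := tRoots
  exact assembly hSt hB hSy tTrans (tSmall6 hX) (tSmall7 hX) (tSmall8 hX) (tSmall9 hX) (tSmall10 hX)
    (tSmall11 hX) (tPlus tDet hRo hL) (tMinus tDet hRo hL) n hn

end Q281ER
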